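import Pool.Agent.W783.Perc.Stmts

set_option autoImplicit false

open MeasureTheory Set

/-!
More statements: Harris inequality and sharpness for site percolation (all nearest-neighbour bonds
open, sites open with probability `a`).
-/

namespace Pool.Agent.W783.PC

noncomputable section

/-- HARRIS: increasing events are positively correlated. -/
def S_harris : Prop := ∀ (ι : Type) (r : ι → unitInterval) (F : Finset ι) (A B : Set (ι → Bool)),
  DepOn A (F : Set ι) → DepOn B (F : Set ι) → Inc A → Inc B →
  (pm r).real A * (pm r).real B ≤ (pm r).real (A ∩ B)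

open scoped Classical in
/-- The site version of `phi`: all nearest-neighbour bonds are open, sites are open with
probability `a`; expected number of bonds from the cluster of `x` in `S` to the outside (`x` is
required to be open). -/
def phiS {n : ℕ} (a : unitInterval) (β : NNReal) (s : ℝ) (m : ℕ) (S : Finset (V n)) (x : V n) : ℝ :=
  ∑ y ∈ S, (pm (prob (n := n) a 1 β s m)).real {ω | ω (Sum.inl x) = true ∧
      (G (EdI m) ω (S : Set (V n))).Reachable x y} *
    ∑' z : V n, if z ∈ S then 0 else (prob (n := n) a 1 β s m (Sum.inr s(y, z)) : ℝ)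

/-- SIMON-S: if `phiS < 1` uniformly for the translates of a finite set, there is no percolation. -/
def S_simonS : Prop := ∀ (n m : ℕ) (a : unitInterval) (β : NNReal) (s : ℝ), 1 < s →
  ∀ (S : Finset (V n)) (ρ : ℝ), 0 ∈ S → ρ < 1 →
  (∀ x : V n, phiS a β s m (S.map (addRightEmbedding x)) x ≤ ρ) →
  ∀ x : V n, (pm (prob (n := n) a 1 β s m)).real (Perc (EdI m) x) = 0

/-- DCT-S: nearest-neighbour site percolation: if there is no percolation at `a' > a`, then
`phiS_a(S) < 1` for some finite set `S`. -/
def S_dctS : Prop := ∀ (n m : ℕ) (s : ℝ) (a a' : unitInterval), 1 ≤ n → a < a' →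
  (pm (prob (n := n) a' 1 0 s m)).real (Perc (EdI m) 0) = 0 →
  ∃ S : Finset (V n), 0 ∈ S ∧ phiS a 0 s m S 0 < 1

end

end Pool.Agent.W783.PC
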