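import Pool.Agent.W783.Perc.CellProb
import Pool.Agent.W45.PC.PT1
import Pool.Agent.W400.PC.PT
import Pool.Agent.W975.PC.GR1
import Pool.Agent.W599.PC.Gr2
import Pool.Agent.W376.PC.Link
import Pool.Agent.W578.PC.Lim
import Pool.Agent.W573.PC.Multi

set_option autoImplicit false

open MeasureTheory Set

/-!
Step 2: probability of the cell events.
-/

namespace Pool.Agent.W783.PC

noncomputable section

variable {n : ℕ}

namespace Dat

variable (d : Dat n)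

lemma R_finite (i j : ℤ) : (d.R i j).Finite := by
  have h : d.R i j ⊆ {x : V n | 10 * d.N * j - 2 * d.N ≤ x.1 ∧ x.1 < 10 * d.N * j + 8 * d.N ∧
      ∀ k, i * d.m * e1 n k - 2 * d.M ≤ x.2 k ∧ x.2 k < i * d.m * e1 n k + 3 * d.M} := by
    intro x hx
    rw [d.mem_R] at hx
    exact ⟨hx.1.1, hx.1.2, hx.2⟩
  exact (finite_bdd _ _ _ _).subset h

lemma SR_finite (i j : ℤ) : (d.SR i j).Finite :=
  (Pool.Agent.W975.PC.s_int_fin n _ (d.R_finite i j)).inter_of_left _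

lemma SI_finite (i b : ℤ) : (d.SI i b).Finite := by
  have h : d.SI i b ⊆ ⋃ j ∈ (Finset.Ico (b * d.J) ((b + 1) * d.J) : Finset ℤ), d.SR i j := by
    rintro c ⟨j, h1, h2, h3⟩
    simp only [mem_iUnion, Finset.mem_Ico]
    exact ⟨j, ⟨h1, h2⟩, h3⟩
  exact ((Finset.finite_toSet _).biUnion (fun j _ => d.SR_finite i j)).subset h

lemma Gd_meas (i j : ℤ) :
    MeasurableSet (Gd d.E d.m d.N d.M d.κ (zz n d.m d.N i j) d.u) := by
  refine Pool.Agent.W45.PC.s_depmeas _ (d.SR_finite i j).toFinset _ ?_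
  rw [Set.Finite.coe_toFinset]
  exact d.Gd_dep i j

lemma R_disj {i j j' : ℤ} (h : j ≠ j') : Disjoint (d.R i j) (d.R i j') := by
  have hN : (1 : ℤ) ≤ d.N := by exact_mod_cast d.hN
  have key : ∀ j j' : ℤ, j < j' → ∀ x ∈ d.R i j, x ∉ d.R i j' := by
    intro j j' hj x hx hx'
    rw [d.mem_R] at hx hx'
    have : 10 * (d.N : ℤ) * (j + 1) ≤ 10 * d.N * j' :=
      mul_le_mul_of_nonneg_left (by linarith) (by positivity)
    nlinarith [hx.1.2, hx'.1.1]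
  rw [Set.disjoint_left]
  intro x hx hx'
  rcases lt_or_gt_of_ne h with h | h
  · exact key j j' h x hx hx'
  · exact key j' j h x hx' hx

lemma prob_Cd_empty (r : Ix n → unitInterval) {c0 : ℝ}
    (hP : ∀ i j, c0 ≤ (pm r).real (Gd d.E d.m d.N d.M d.κ (zz n d.m d.N i j) d.u)) (i b : ℤ) :
    (pm r).real {ω | ¬ (d.Cd ω i b).Nonempty} ≤ (1 - c0) ^ d.J := by
  classical
  have h1 : {ω : Cfg n | ¬ (d.Cd ω i b).Nonempty} =
      ⋂ j ∈ Finset.Ico (b * d.J) ((b + 1) * d.J),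
        (Gd d.E d.m d.N d.M d.κ (zz n d.m d.N i j) d.u)ᶜ := by
    ext ω
    simp only [mem_ofPred_eq, mem_iInter, Finset.mem_Ico, mem_compl_iff]
    constructor
    · rintro h j ⟨hj1, hj2⟩ ⟨x, hx, hx2⟩
      exact h ⟨(j, x), hj1, hj2, hx, hx2⟩
    · rintro h ⟨q, hq1, hq2, hq3, hq4⟩
      exact h q.1 ⟨hq1, hq2⟩ ⟨q.2, hq3, hq4⟩
  have h2 := Pool.Agent.W45.PC.s_indepF _ r ℤ (Finset.Ico (b * d.J) ((b + 1) * d.J))
    (fun j => d.SR i j) (fun j => (Gd d.E d.m d.N d.M d.κ (zz n d.m d.N i j) d.u)ᶜ)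
    (fun j _ => (d.Gd_dep i j).compl) (fun j _ j' _ hjj => by
      refine Disjoint.mono inter_subset_left inter_subset_left ?_
      exact Int'_disj (d.R_disj hjj)) (fun j _ => (d.Gd_meas i j).compl)
  rw [h1, Measure.real, h2, ENNReal.toReal_prod]
  calc ∏ j ∈ Finset.Ico (b * (d.J : ℤ)) ((b + 1) * d.J),
        ((pm r) (Gd d.E d.m d.N d.M d.κ (zz n d.m d.N i j) d.u)ᶜ).toReal
      ≤ ∏ j ∈ Finset.Ico (b * (d.J : ℤ)) ((b + 1) * d.J), (1 - c0) := by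
        refine Finset.prod_le_prod (fun _ _ => ENNReal.toReal_nonneg) (fun j _ => ?_)
        have := probReal_compl_eq_one_sub (μ := pm r) (d.Gd_meas i j)
        rw [Measure.real] at this
        rw [this]
        linarith [hP i j]
    _ = (1 - c0) ^ d.J := by
        rw [Finset.prod_const, Int.card_Ico]
        congr 1
        have : (b + 1) * (d.J : ℤ) - b * d.J = d.J := by ring
        rw [this]
        simp

/-- a link bond is not inside a block -/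
lemma link_notin {i' j : ℤ} {y z : V n} {j1 j2 : ℤ} (h12 : j1 < j2)
    (h3 : 10 * d.N * j1 ≤ y.1) (h4 : y.1 < 10 * d.N * j1 + d.N)
    (h3' : 10 * d.N * j2 ≤ z.1) :
    (Sum.inr s(y, z) : Ix n) ∉ Int' (d.R i' j) := by
  have hN : (1 : ℤ) ≤ d.N := by exact_mod_cast d.hN
  rintro (⟨x, hx, hxx⟩ | ⟨e, he, hee⟩)
  · cases hxx
  · rw [Sum.inr.injEq] at hee
    subst hee
    have hy := he y (Sym2.mem_mk_left y z)
    have hz := he z (Sym2.mem_mk_right y z)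
    rw [d.mem_R] at hy hz
    obtain ⟨⟨a1, a2⟩, _⟩ := hy
    obtain ⟨⟨a3, a4⟩, _⟩ := hz
    have b1 : j ≤ j1 := by
      by_contra hc
      have : 10 * (d.N : ℤ) * (j1 + 1) ≤ 10 * d.N * j :=
        mul_le_mul_of_nonneg_left (by omega) (by positivity)
      nlinarith
    have b2 : j2 ≤ j := by
      by_contra hc
      have : 10 * (d.N : ℤ) * (j + 1) ≤ 10 * d.N * j2 :=
        mul_le_mul_of_nonneg_left (by omega) (by positivity)
      nlinarith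
    omega

lemma link_fail {r : Ix n → unitInterval} {w : ℝ} (hw : 0 ≤ w)
    (hr : ∀ y z : V n, Lg d.m y z → (y.1 - z.1).natAbs ≤ 20 * d.N * d.J →
      1 - (r (Sum.inr s(y, z)) : ℝ) ≤ Real.exp (-w)) (i b i' : ℤ) (X : Cfg n → Finset (V n))
    (hXc : ∀ ω ω' : Cfg n, (∀ c ∈ d.SI i' b, ω c = ω' c) → X ω = X ω')
    (hXl : ∀ ω, ∀ y ∈ X ω, ∃ j, b * d.J ≤ j ∧ j < (b + 1) * d.J ∧ 10 * d.N * j ≤ y.1 ∧
      y.1 < 10 * d.N * j + d.N ∧ y.2 = (i * d.m) • e1 n + d.u) :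
    (pm r).real {ω | (d.κ * d.N) ^ 2 ≤ ((X ω).card : ℝ) * (d.Wf ω i (b + 1)).card ∧
      ¬ lk ω (X ω) (d.Wf ω i (b + 1))} ≤ Real.exp (-(w * (d.κ * d.N) ^ 2)) := by
  classical
  have hfin : (d.SI i' b ∪ d.SI i (b + 1)).Finite := (d.SI_finite i' b).union (d.SI_finite i (b + 1))
  have key := Pool.Agent.W376.PC.s_link Pool.Agent.W45.PC.s_glue Pool.Agent.W400.PC.s_closedF n r
    hfin.toFinset X (fun ω => d.Wf ω i (b + 1)) w ((d.κ * d.N) ^ 2) hw (by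
      intro ω ω' h
      refine ⟨hXc ω ω' (fun c hc => h c ?_), d.Wf_congr (fun c hc => h c ?_)⟩
      · rw [Set.Finite.mem_toFinset]; exact Or.inl hc
      · rw [Set.Finite.mem_toFinset]; exact Or.inr hc) (by
      intro ω
      rw [Finset.disjoint_left]
      intro y hy hy'
      obtain ⟨j, h1, h2, h3, h4, h5⟩ := hXl ω y hy
      obtain ⟨j', h1', h2', h3', h4', h5'⟩ := d.Wf_loc hy'
      have := (d.dist_bd h1 h2 h3 h4 h1' h2' h3' h4').1
      omega) (by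
      intro ω y hy z hz
      obtain ⟨j, h1, h2, h3, h4, h5⟩ := hXl ω y hy
      obtain ⟨j', h1', h2', h3', h4', h5'⟩ := d.Wf_loc hz
      have hjj : j < j' := by linarith
      obtain ⟨a1, a2⟩ := d.link_mem h1 h2 h3 h4 h5 h1' h2' h3' h4' h5'
      refine ⟨?_, hr y z a1 a2⟩
      rw [Set.Finite.mem_toFinset]
      rintro (⟨k, _, _, hk, _⟩ | ⟨k, _, _, hk, _⟩)
      · exact d.link_notin hjj h3 h4 h3' hk
      · exact d.link_notin hjj h3 h4 h3' hk)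
  refine le_trans (measureReal_mono ?_) key
  rintro ω ⟨h1, h2⟩
  refine ⟨h1, fun y hy z hz => ?_⟩
  by_contra hc
  exact h2 ⟨y, hy, z, hz, by simpa using hc⟩

lemma prob_row (r : Ix n → unitInterval) {c0 w : ℝ} (hw : 0 ≤ w)
    (hP : ∀ i j, c0 ≤ (pm r).real (Gd d.E d.m d.N d.M d.κ (zz n d.m d.N i j) d.u))
    (hr : ∀ y z : V n, Lg d.m y z → (y.1 - z.1).natAbs ≤ 20 * d.N * d.J →
      1 - (r (Sum.inr s(y, z)) : ℝ) ≤ Real.exp (-w)) (i b : ℤ) :
    (pm r).real {ω | ¬ d.rowOK ω i b} ≤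
      2 * (1 - c0) ^ d.J + 2 * Real.exp (-(w * (d.κ * d.N) ^ 2)) := by
  set F1 : Set (Cfg n) := {ω | ¬ (d.Cd ω i b).Nonempty}
  set F2 : Set (Cfg n) := {ω | ¬ (d.Cd ω i (b + 1)).Nonempty}
  set F3 : Set (Cfg n) := {ω | (d.κ * d.N) ^ 2 ≤ ((d.Wf ω i b).card : ℝ) * (d.Wf ω i (b + 1)).card ∧
      ¬ lk ω (d.Wf ω i b) (d.Wf ω i (b + 1))}
  set F4 : Set (Cfg n) := {ω | (d.κ * d.N) ^ 2 ≤ ((d.Wu ω (i - 1) b).card : ℝ) *
      (d.Wf ω i (b + 1)).card ∧ ¬ lk ω (d.Wu ω (i - 1) b) (d.Wf ω i (b + 1))}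
  have hκN : 0 ≤ d.κ * d.N := mul_nonneg d.hκ.le (Nat.cast_nonneg _)
  have hsub : {ω : Cfg n | ¬ d.rowOK ω i b} ⊆ (F1 ∪ F2) ∪ (F3 ∪ F4) := by
    intro ω hω
    by_contra hc
    simp only [mem_union, not_or] at hc
    obtain ⟨⟨h1, h2⟩, h3, h4⟩ := hc
    have h1' : (d.Cd ω i b).Nonempty := not_not.mp h1
    have h2' : (d.Cd ω i (b + 1)).Nonempty := not_not.mp h2
    apply hω
    refine ⟨h1', h2', ?_, fun h5 => ?_⟩
    · by_contra hl
      apply h3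
      refine ⟨?_, hl⟩
      rw [sq]
      exact mul_le_mul (d.card_Wf h1') (d.card_Wf h2') hκN (Nat.cast_nonneg _)
    · by_contra hl
      apply h4
      refine ⟨?_, hl⟩
      rw [sq, d.card_Wu]
      exact mul_le_mul (d.card_Wf h5) (d.card_Wf h2') hκN (Nat.cast_nonneg _)
  have b1 := d.prob_Cd_empty r hP i b
  have b2 := d.prob_Cd_empty r hP i (b + 1)
  have b3 := d.link_fail hw hr i b i (fun ω => d.Wf ω i b) (fun ω ω' h => d.Wf_congr h)
    (fun ω y hy => d.Wf_loc hy)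
  have b4 := d.link_fail hw hr i b (i - 1) (fun ω => d.Wu ω (i - 1) b)
    (fun ω ω' h => by show d.Wu ω (i - 1) b = d.Wu ω' (i - 1) b; unfold Wu; rw [d.Wf_congr h])
    (fun ω y hy => d.Wu_loc hy)
  calc (pm r).real {ω : Cfg n | ¬ d.rowOK ω i b} ≤ (pm r).real ((F1 ∪ F2) ∪ (F3 ∪ F4)) :=
        measureReal_mono hsub
    _ ≤ ((pm r).real F1 + (pm r).real F2) + ((pm r).real F3 + (pm r).real F4) :=
        (measureReal_union_le _ _).trans (add_le_add (measureReal_union_le _ _)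
          (measureReal_union_le _ _))
    _ ≤ 2 * (1 - c0) ^ d.J + 2 * Real.exp (-(w * (d.κ * d.N) ^ 2)) := by
        have c1 : (pm r).real F1 ≤ (1 - c0) ^ d.J := b1
        have c2 : (pm r).real F2 ≤ (1 - c0) ^ d.J := b2
        have c3 : (pm r).real F3 ≤ Real.exp (-(w * (d.κ * d.N) ^ 2)) := b3
        have c4 : (pm r).real F4 ≤ Real.exp (-(w * (d.κ * d.N) ^ 2)) := b4
        linarith

theorem prob_Bc (r : Ix n → unitInterval) {c0 w : ℝ} (hw : 0 ≤ w)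
    (hP : ∀ i j, c0 ≤ (pm r).real (Gd d.E d.m d.N d.M d.κ (zz n d.m d.N i j) d.u))
    (hr : ∀ y z : V n, Lg d.m y z → (y.1 - z.1).natAbs ≤ 20 * d.N * d.J →
      1 - (r (Sum.inr s(y, z)) : ℝ) ≤ Real.exp (-w)) (v : ℤ × ℤ) :
    (pm r).real (d.Bc v) ≤ (2 * (d.M : ℝ) + 1) *
      (2 * (1 - c0) ^ d.J + 2 * Real.exp (-(w * (d.κ * d.N) ^ 2))) := by
  classical
  have hsub : d.Bc v ⊆ ⋃ i ∈ Finset.Icc (d.D * v.2) (d.D * (v.2 + 1)),
      {ω : Cfg n | ¬ d.rowOK ω i v.1} := by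
    rintro ω ⟨i, h1, h2, h3⟩
    simp only [mem_iUnion, Finset.mem_Icc]
    exact ⟨i, ⟨h1, h2⟩, h3⟩
  calc (pm r).real (d.Bc v) ≤ (pm r).real (⋃ i ∈ Finset.Icc (d.D * v.2) (d.D * (v.2 + 1)),
      {ω : Cfg n | ¬ d.rowOK ω i v.1}) := measureReal_mono hsub (measure_ne_top _ _)
    _ ≤ ∑ i ∈ Finset.Icc (d.D * v.2) (d.D * (v.2 + 1)), (pm r).real {ω : Cfg n | ¬ d.rowOK ω i v.1} :=
        measureReal_biUnion_finset_le _ _
    _ ≤ ∑ i ∈ Finset.Icc (d.D * v.2) (d.D * (v.2 + 1)),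
        (2 * (1 - c0) ^ d.J + 2 * Real.exp (-(w * (d.κ * d.N) ^ 2))) :=
        Finset.sum_le_sum (fun i _ => d.prob_row r hw hP hr i v.1)
    _ = _ := by
        rw [Finset.sum_const, Int.card_Icc, nsmul_eq_mul]
        congr 1
        have : d.D * (v.2 + 1) + 1 - d.D * v.2 = 2 * d.M + 1 := by unfold D; ring
        rw [this]
        have h2 : ((2 * (d.M : ℤ) + 1).toNat : ℤ) = 2 * d.M + 1 := Int.toNat_of_nonneg (by positivity)
        exact_mod_cast h2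

end Dat

end

end Pool.Agent.W783.PC
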