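import Pool.Agent.W783.Perc.Cells

set_option autoImplicit false

open MeasureTheory Set

/-!
Step 2, probabilistic part: dependence and probability of the cell events.
-/

namespace Pool.Agent.W783.PC

noncomputable section

variable {n : ℕ}

lemma NN_symm {x y : V n} (h : NN x y) : NN y x := by
  unfold NN at h ⊢
  rw [abs_sub_comm, Finset.sum_congr rfl (fun i _ => abs_sub_comm (y.2 i) (x.2 i))]
  exact h

lemma isNN_iff {x y : V n} : isNN s(x, y) ↔ NN x y := by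
  constructor
  · rintro ⟨a, b, h1, h2⟩
    rw [Sym2.eq_iff] at h1
    rcases h1 with ⟨rfl, rfl⟩ | ⟨rfl, rfl⟩
    · exact h2
    · exact NN_symm h2
  · exact fun h => ⟨x, y, rfl, h⟩

lemma Lg_symm {m : ℕ} {x y : V n} (h : Lg m x y) : Lg m y x := by
  obtain ⟨h1, h2, h3⟩ := h
  refine ⟨h1.symm, fun i => by rw [← h1]; exact h2 i, ?_⟩
  omega

lemma isLg_iff {m : ℕ} {x y : V n} : isLg m s(x, y) ↔ Lg m x y := by
  constructor
  · rintro ⟨a, b, h1, h2⟩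
    rw [Sym2.eq_iff] at h1
    rcases h1 with ⟨rfl, rfl⟩ | ⟨rfl, rfl⟩
    · exact h2
    · exact Lg_symm h2
  · exact fun h => ⟨x, y, rfl, h⟩

lemma len_mk (x y : V n) : len s(x, y) = (x.1 - y.1).natAbs := rfl

lemma not_NN_of_Lg {m : ℕ} {x y : V n} (h : Lg m x y) : ¬ NN x y := by
  intro h'
  obtain ⟨h1, h2, h3⟩ := h
  unfold NN at h'
  rw [h1] at h'
  simp only [sub_self, abs_zero, Finset.sum_const_zero, add_zero] at h'
  rw [← Int.natCast_natAbs] at h'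
  omega

lemma prob_long {a p : unitInterval} {β : NNReal} {s : ℝ} {m : ℕ} {x y : V n} (h : Lg m x y) :
    prob a p β s m (Sum.inr s(x, y)) = lrp β s (x.1 - y.1).natAbs := by
  unfold prob
  simp only
  rw [if_neg (fun h' => not_NN_of_Lg h (isNN_iff.mp h')), if_pos (isLg_iff.mpr h), len_mk]

lemma G_congr {E : Set (Sym2 (V n))} {R : Set (V n)} {ω ω' : Cfg n}
    (h : ∀ c ∈ Int' R ∩ rel E, ω c = ω' c) : G E ω R = G E ω' R := by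
  ext x y
  constructor
  · rintro ⟨h1, h2, h3, h4, h5, h6, h7⟩
    refine ⟨h1, h2, h3, h4, ?_, ?_, ?_⟩
    · rw [← h _ ⟨Or.inl ⟨x, h2, rfl⟩, Or.inl ⟨x, rfl⟩⟩]; exact h5
    · rw [← h _ ⟨Or.inl ⟨y, h3, rfl⟩, Or.inl ⟨y, rfl⟩⟩]; exact h6
    · rw [← h _ ⟨Or.inr ⟨_, ?_, rfl⟩, Or.inr ⟨_, h4, rfl⟩⟩]
      · exact h7
      · intro z hz
        rw [Sym2.mem_iff] at hz
        rcases hz with rfl | rfl
        · exact h2
        · exact h3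
  · rintro ⟨h1, h2, h3, h4, h5, h6, h7⟩
    refine ⟨h1, h2, h3, h4, ?_, ?_, ?_⟩
    · rw [h _ ⟨Or.inl ⟨x, h2, rfl⟩, Or.inl ⟨x, rfl⟩⟩]; exact h5
    · rw [h _ ⟨Or.inl ⟨y, h3, rfl⟩, Or.inl ⟨y, rfl⟩⟩]; exact h6
    · rw [h _ ⟨Or.inr ⟨_, ?_, rfl⟩, Or.inr ⟨_, h4, rfl⟩⟩]
      · exact h7
      · intro z hz
        rw [Sym2.mem_iff] at hz
        rcases hz with rfl | rfl
        · exact h2
        · exact h3

lemma DepOn.mono {ι : Type} {A : Set (ι → Bool)} {S T : Set ι} (h : DepOn A S) (hST : S ⊆ T) :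
    DepOn A T := fun ω ω' h' => h ω ω' (fun c hc => h' c (hST hc))

lemma DepOn.compl {ι : Type} {A : Set (ι → Bool)} {S : Set ι} (h : DepOn A S) :
    DepOn Aᶜ S := fun ω ω' h' => not_congr (h ω ω' h')

/-- finiteness of bounded sets of vertices -/
lemma finite_bdd (l r : ℤ) (L R : Fin n → ℤ) :
    {x : V n | l ≤ x.1 ∧ x.1 < r ∧ ∀ i, L i ≤ x.2 i ∧ x.2 i < R i}.Finite := by
  have h : {x : V n | l ≤ x.1 ∧ x.1 < r ∧ ∀ i, L i ≤ x.2 i ∧ x.2 i < R i} ⊆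
      (Set.Ico l r) ×ˢ (Set.pi univ (fun i => Set.Ico (L i) (R i))) := by
    rintro x ⟨h1, h2, h3⟩
    exact ⟨⟨h1, h2⟩, fun i _ => h3 i⟩
  exact ((Set.finite_Ico l r).prod (Set.Finite.pi' (fun i => Set.finite_Ico _ _))).subset (by
    intro x hx
    obtain ⟨h1, h2⟩ := h hx
    exact ⟨h1, fun i => h2 i (mem_univ i)⟩)

namespace Dat

variable (d : Dat n)

/-- the coordinates of the block -/
def SR (i j : ℤ) : Set (Ix n) := Int' (d.R i j) ∩ rel d.E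

/-- the coordinates of the superblock -/
def SI (i b : ℤ) : Set (Ix n) := {c | ∃ j, b * d.J ≤ j ∧ j < (b + 1) * d.J ∧ c ∈ d.SR i j}

lemma upv_mem_R {i j : ℤ} {x : V n} (hx : x ∈ d.sg' i j) (k : ℤ) (hk : 0 ≤ k) (hk' : k ≤ d.m) :
    upv x k ∈ d.R i j := by
  rw [d.mem_sg] at hx
  rw [d.mem_R]
  obtain ⟨⟨h1, h2⟩, h3⟩ := hx
  have hN : (1 : ℤ) ≤ d.N := by exact_mod_cast d.hN
  have hM : (d.m : ℤ) ≤ d.M := by exact_mod_cast d.hM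
  have hm : (1 : ℤ) ≤ d.m := by exact_mod_cast d.hm
  refine ⟨⟨?_, ?_⟩, ?_⟩
  · show _ ≤ x.1
    linarith
  · show x.1 < _
    linarith
  · intro q
    show _ ≤ (x.2 + k • e1 n) q ∧ (x.2 + k • e1 n) q < _
    rw [h3]
    simp only [Pi.add_apply, Pi.smul_apply, smul_eq_mul]
    obtain ⟨-, u1, u2⟩ := d.hu q
    rcases e1_cases q with h | h
    · rw [h]; constructor <;> linarith
    · rw [h]; constructor <;> linarith

lemma Fop_congr {i j : ℤ} {ω ω' : Cfg n} (h : ∀ c ∈ d.SR i j, ω c = ω' c) {x : V n}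
    (hx : x ∈ d.sg' i j) : Fop d.m ω x ↔ Fop d.m ω' x := by
  have h1 : ∀ k : ℕ, k ≤ d.m → ω (Sum.inl (upv x k)) = ω' (Sum.inl (upv x k)) := fun k hk =>
    h _ ⟨Or.inl ⟨_, d.upv_mem_R hx k (by positivity) (by exact_mod_cast hk), rfl⟩, Or.inl ⟨_, rfl⟩⟩
  have h2 : ∀ k : ℕ, k < d.m → ω (Sum.inr s(upv x k, upv x (k + 1))) =
      ω' (Sum.inr s(upv x k, upv x (k + 1))) := fun k hk =>
    h _ ⟨Or.inr ⟨_, fun z hz => by
      rw [Sym2.mem_iff] at hz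
      rcases hz with rfl | rfl
      · exact d.upv_mem_R hx k (by positivity) (by exact_mod_cast hk.le)
      · exact d.upv_mem_R hx (k + 1) (by positivity) (by exact_mod_cast hk), rfl⟩,
      Or.inr ⟨_, d.NN_mem_E (NN_upv x d.hn k), rfl⟩⟩
  unfold Fop
  constructor
  · rintro ⟨a, b⟩
    exact ⟨fun k hk => (h1 k hk) ▸ a k hk, fun k hk => (h2 k hk) ▸ b k hk⟩
  · rintro ⟨a, b⟩
    exact ⟨fun k hk => (h1 k hk).symm ▸ a k hk, fun k hk => (h2 k hk).symm ▸ b k hk⟩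

lemma cnt_congr {i j : ℤ} {ω ω' : Cfg n} (h : ∀ c ∈ d.SR i j, ω c = ω' c) (x : V n) :
    cnt d.E d.m d.N ω (zz n d.m d.N i j + (0, d.u)) (d.R i j) x =
      cnt d.E d.m d.N ω' (zz n d.m d.N i j + (0, d.u)) (d.R i j) x := by
  unfold cnt
  congr 1
  ext y
  simp only [Finset.mem_filter]
  rw [G_congr h]
  constructor
  · rintro ⟨h1, h2, h3⟩
    exact ⟨h1, h2, (d.Fop_congr h h1).mp h3⟩
  · rintro ⟨h1, h2, h3⟩
    exact ⟨h1, h2, (d.Fop_congr h h1).mpr h3⟩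

lemma Gd_dep (i j : ℤ) : DepOn (Gd d.E d.m d.N d.M d.κ (zz n d.m d.N i j) d.u) (d.SR i j) := by
  intro ω ω' h
  constructor
  · rintro ⟨x, hx, h1⟩
    refine ⟨x, hx, ?_⟩
    show d.κ * d.N ≤ (cnt d.E d.m d.N ω' (zz n d.m d.N i j + (0, d.u)) (d.R i j) x : ℝ)
    rw [← d.cnt_congr h x]
    exact h1
  · rintro ⟨x, hx, h1⟩
    refine ⟨x, hx, ?_⟩
    show d.κ * d.N ≤ (cnt d.E d.m d.N ω (zz n d.m d.N i j + (0, d.u)) (d.R i j) x : ℝ)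
    rw [d.cnt_congr h x]
    exact h1

lemma Cd_congr {i b : ℤ} {ω ω' : Cfg n} (h : ∀ c ∈ d.SI i b, ω c = ω' c) :
    d.Cd ω i b = d.Cd ω' i b := by
  ext q
  unfold Cd
  constructor
  · rintro ⟨h1, h2, h3, h4⟩
    refine ⟨h1, h2, h3, ?_⟩
    rw [← d.cnt_congr (fun c hc => h c ⟨q.1, h1, h2, hc⟩) q.2]
    exact h4
  · rintro ⟨h1, h2, h3, h4⟩
    refine ⟨h1, h2, h3, ?_⟩
    rw [d.cnt_congr (fun c hc => h c ⟨q.1, h1, h2, hc⟩) q.2]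
    exact h4

lemma ch_congr {i b : ℤ} {ω ω' : Cfg n} (h : ∀ c ∈ d.SI i b, ω c = ω' c) :
    d.ch ω i b = d.ch ω' i b := by
  unfold ch
  rw [d.Cd_congr h]

lemma Wf_congr {i b : ℤ} {ω ω' : Cfg n} (h : ∀ c ∈ d.SI i b, ω c = ω' c) :
    d.Wf ω i b = d.Wf ω' i b := by
  classical
  unfold Wf
  rw [d.ch_congr h, d.Cd_congr h]
  split_ifs with hne
  · have hm := d.ch_mem hne
    have h' : ∀ c ∈ d.SR i (d.ch ω' i b).1, ω c = ω' c := fun c hc => h c ⟨_, hm.1, hm.2.1, hc⟩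
    ext y
    simp only [Finset.mem_filter]
    rw [G_congr h']
    constructor
    · rintro ⟨h1, h2, h3⟩
      exact ⟨h1, h2, (d.Fop_congr h' h1).mp h3⟩
    · rintro ⟨h1, h2, h3⟩
      exact ⟨h1, h2, (d.Fop_congr h' h1).mpr h3⟩
  · rfl

lemma R_sub_Q {v : ℤ × ℤ} {i j : ℤ} (hi : d.D * v.2 - 1 ≤ i) (hi' : i ≤ d.D * (v.2 + 1))
    (hj : v.1 * d.J ≤ j) (hj' : j < (v.1 + 2) * d.J) : d.R i j ⊆ d.Q v := by
  intro x hx
  rw [d.mem_R] at hx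
  obtain ⟨⟨h1, h2⟩, h3⟩ := hx
  have hN : (1 : ℤ) ≤ d.N := by exact_mod_cast d.hN
  have hm : (1 : ℤ) ≤ d.m := by exact_mod_cast d.hm
  have a1 : 10 * (d.N : ℤ) * (v.1 * d.J) ≤ 10 * d.N * j :=
    mul_le_mul_of_nonneg_left hj (by positivity)
  have a2 : 10 * (d.N : ℤ) * (j + 1) ≤ 10 * d.N * ((v.1 + 2) * d.J) :=
    mul_le_mul_of_nonneg_left (by linarith) (by positivity)
  refine ⟨by nlinarith, by nlinarith, ?_⟩
  intro k
  obtain ⟨h4, h5⟩ := h3 k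
  rcases e1_cases k with h | h
  · rw [h] at h4 h5 ⊢
    constructor <;> linarith
  · rw [h] at h4 h5 ⊢
    have b1 : (d.D * v.2 - 1) * d.m ≤ i * d.m := mul_le_mul_of_nonneg_right hi (by positivity)
    have b2 : i * d.m ≤ (d.D * v.2 + d.D) * d.m :=
      mul_le_mul_of_nonneg_right (by linarith) (by positivity)
    constructor <;> linarith

lemma Int'_mono {R R' : Set (V n)} (h : R ⊆ R') : Int' R ⊆ Int' R' := by
  rintro c (⟨x, hx, rfl⟩ | ⟨e, he, rfl⟩)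
  · exact Or.inl ⟨x, h hx, rfl⟩
  · exact Or.inr ⟨e, fun x hx => h (he x hx), rfl⟩

lemma SI_sub {v : ℤ × ℤ} {i b : ℤ} (hi : d.D * v.2 - 1 ≤ i) (hi' : i ≤ d.D * (v.2 + 1))
    (hb : b = v.1 ∨ b = v.1 + 1) : d.SI i b ⊆ Int' (d.Q v) ∩ rel d.E := by
  rintro c ⟨j, h1, h2, h3, h4⟩
  have hJ : (1 : ℤ) ≤ d.J := by exact_mod_cast d.hJ
  refine ⟨Int'_mono (d.R_sub_Q hi hi' ?_ ?_) h3, h4⟩
  · rcases hb with rfl | rfl <;> nlinarith
  · rcases hb with rfl | rfl <;> nlinarith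

/-- vertices in the line segments lie in the region of the cell -/
lemma loc_mem_Q {v : ℤ × ℤ} {i b : ℤ} (hi : d.D * v.2 - 1 ≤ i) (hi' : i ≤ d.D * (v.2 + 1))
    (hb : b = v.1 ∨ b = v.1 + 1) {y : V n} (h : ∃ j, b * d.J ≤ j ∧ j < (b + 1) * d.J ∧
      10 * d.N * j ≤ y.1 ∧ y.1 < 10 * d.N * j + d.N ∧ y.2 = (i * d.m) • e1 n + d.u) :
    y ∈ d.Q v := by
  obtain ⟨j, h1, h2, h3, h4, h5⟩ := h
  have hJ : (1 : ℤ) ≤ d.J := by exact_mod_cast d.hJ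
  have h6 : y ∈ d.sg' i j := by rw [d.mem_sg]; exact ⟨⟨h3, h4⟩, h5⟩
  have h7 := d.upv_mem_R h6 0 le_rfl (by positivity)
  have h8 : upv y 0 = y := by simp [upv]
  rw [h8] at h7
  refine d.R_sub_Q hi hi' ?_ ?_ h7
  · rcases hb with rfl | rfl <;> nlinarith
  · rcases hb with rfl | rfl <;> nlinarith

lemma lk_congr {v : ℤ × ℤ} {i : ℤ} (hi : d.D * v.2 ≤ i) (hi' : i ≤ d.D * (v.2 + 1))
    {ω ω' : Cfg n} (h : ∀ c ∈ Int' (d.Q v) ∩ rel d.E, ω c = ω' c) {X Y : Finset (V n)}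
    (hX : ∀ y ∈ X, ∃ j, v.1 * d.J ≤ j ∧ j < (v.1 + 1) * d.J ∧ 10 * d.N * j ≤ y.1 ∧
      y.1 < 10 * d.N * j + d.N ∧ y.2 = (i * d.m) • e1 n + d.u)
    (hY : ∀ y ∈ Y, ∃ j, (v.1 + 1) * d.J ≤ j ∧ j < (v.1 + 1 + 1) * d.J ∧ 10 * d.N * j ≤ y.1 ∧
      y.1 < 10 * d.N * j + d.N ∧ y.2 = (i * d.m) • e1 n + d.u) :
    lk ω X Y ↔ lk ω' X Y := by
  have key : ∀ y ∈ X, ∀ z ∈ Y, ω (Sum.inr s(y, z)) = ω' (Sum.inr s(y, z)) := by
    intro y hy z hz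
    apply h
    have hyQ := d.loc_mem_Q (by linarith) hi' (Or.inl rfl) (hX y hy)
    have hzQ := d.loc_mem_Q (by linarith) hi' (Or.inr rfl) (hY z hz)
    obtain ⟨j, h3, h4, h5, h6, h7⟩ := hX y hy
    obtain ⟨j', h3', h4', h5', h6', h7'⟩ := hY z hz
    obtain ⟨a1, a2⟩ := d.link_mem h3 h4 h5 h6 h7 h3' h4' h5' h6' h7'
    refine ⟨Or.inr ⟨_, fun x hx => ?_, rfl⟩, Or.inr ⟨_, Or.inr ⟨⟨y, z, rfl, a1⟩, a2⟩, rfl⟩⟩
    rw [Sym2.mem_iff] at hx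
    rcases hx with rfl | rfl
    · exact hyQ
    · exact hzQ
  unfold lk
  constructor
  · rintro ⟨y, hy, z, hz, h1⟩
    exact ⟨y, hy, z, hz, (key y hy z hz) ▸ h1⟩
  · rintro ⟨y, hy, z, hz, h1⟩
    exact ⟨y, hy, z, hz, (key y hy z hz).symm ▸ h1⟩

lemma row_congr {v : ℤ × ℤ} {i : ℤ} (hi : d.D * v.2 ≤ i) (hi' : i ≤ d.D * (v.2 + 1))
    {ω ω' : Cfg n} (h : ∀ c ∈ Int' (d.Q v) ∩ rel d.E, ω c = ω' c) :
    d.rowOK ω i v.1 ↔ d.rowOK ω' i v.1 := by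
  have h1 : ∀ c ∈ d.SI i v.1, ω c = ω' c := fun c hc =>
    h c (d.SI_sub (by linarith) hi' (Or.inl rfl) hc)
  have h2 : ∀ c ∈ d.SI i (v.1 + 1), ω c = ω' c := fun c hc =>
    h c (d.SI_sub (by linarith) hi' (Or.inr rfl) hc)
  have h3 : ∀ c ∈ d.SI (i - 1) v.1, ω c = ω' c := fun c hc =>
    h c (d.SI_sub (by linarith) (by linarith) (Or.inl rfl) hc)
  unfold rowOK
  have e1 := d.lk_congr hi hi' h (X := d.Wf ω' i v.1) (Y := d.Wf ω' i (v.1 + 1))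
    (fun y hy => d.Wf_loc hy) (fun y hy => d.Wf_loc hy)
  have e2 := d.lk_congr hi hi' h (X := d.Wu ω' (i - 1) v.1) (Y := d.Wf ω' i (v.1 + 1))
    (fun y hy => d.Wu_loc hy) (fun y hy => d.Wf_loc hy)
  have e3 : d.Wu ω (i - 1) v.1 = d.Wu ω' (i - 1) v.1 := by
    unfold Wu; rw [d.Wf_congr h3]
  rw [d.Cd_congr h1, d.Cd_congr h2, d.Cd_congr h3, d.Wf_congr h1, d.Wf_congr h2, e3, e1, e2]

theorem Bc_dep (v : ℤ × ℤ) : DepOn (d.Bc v) (Int' (d.Q v) ∩ rel d.E) := by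
  intro ω ω' h
  unfold Bc
  constructor
  · rintro ⟨i, h1, h2, h3⟩
    exact ⟨i, h1, h2, fun hc => h3 ((d.row_congr h1 h2 h).mpr hc)⟩
  · rintro ⟨i, h1, h2, h3⟩
    exact ⟨i, h1, h2, fun hc => h3 ((d.row_congr h1 h2 h).mp hc)⟩

lemma Q_finite (v : ℤ × ℤ) : (d.Q v).Finite := finite_bdd _ _ _ _

open Pool.Agent.H592F in
/-- regions of far cells are disjoint -/
lemma Q_disj {v w : ℤ × ℤ} (h : far v w) : Disjoint (d.Q v) (d.Q w) := by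
  have hN : (1 : ℤ) ≤ d.N := by exact_mod_cast d.hN
  have hJ : (1 : ℤ) ≤ d.J := by exact_mod_cast d.hJ
  have hm : (1 : ℤ) ≤ d.m := by exact_mod_cast d.hm
  have hM : (1 : ℤ) ≤ d.M := by exact_mod_cast d.hM1
  have hNJ : (1 : ℤ) ≤ d.N * d.J := by nlinarith
  have hD : d.D = 2 * d.M := rfl
  have key1 : ∀ v w : ℤ × ℤ, v.1 + 4 ≤ w.1 → ∀ x ∈ d.Q v, x ∉ d.Q w := by
    rintro v w hvw x ⟨_, h2, _⟩ ⟨h3, _, _⟩
    have : 10 * (d.N : ℤ) * d.J * (v.1 + 2) ≤ 10 * d.N * d.J * w.1 :=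
      mul_le_mul_of_nonneg_left (by linarith) (by positivity)
    linarith
  have key2 : ∀ v w : ℤ × ℤ, v.2 + 4 ≤ w.2 → ∀ x ∈ d.Q v, x ∉ d.Q w := by
    rintro v w hvw x ⟨_, _, h2⟩ ⟨_, _, h3⟩
    obtain ⟨_, h4⟩ := h2 ⟨0, d.hn⟩
    obtain ⟨h5, _⟩ := h3 ⟨0, d.hn⟩
    rw [e1_zero d.hn, mul_one] at h4 h5
    rw [hD] at h4 h5
    have b1 : (2 * (d.M : ℤ) * (v.2 + 4) - 1) * d.m ≤ (2 * d.M * w.2 - 1) * d.m :=
      mul_le_mul_of_nonneg_right (by nlinarith) (by positivity)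
    nlinarith
  rw [Set.disjoint_left]
  intro x hx hx'
  rcases h with h | h
  · rw [lt_abs] at h
    rcases h with h | h
    · exact key1 w v (by linarith) x hx' hx
    · exact key1 v w (by linarith) x hx hx'
  · rw [lt_abs] at h
    rcases h with h | h
    · exact key2 w v (by linarith) x hx' hx
    · exact key2 v w (by linarith) x hx hx'

lemma Int'_disj {R R' : Set (V n)} (h : Disjoint R R') : Disjoint (Int' R) (Int' R') := by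
  rw [Set.disjoint_left] at h ⊢
  rintro c (⟨x, hx, rfl⟩ | ⟨e, he, rfl⟩) h'
  · rcases h' with ⟨y, hy, hxy⟩ | ⟨e', _, h2⟩
    · rw [Sum.inl.injEq] at hxy
      subst hxy
      exact h hx hy
    · cases h2
  · rcases h' with ⟨y, hy, hxy⟩ | ⟨e', he', h2⟩
    · cases hxy
    · rw [Sum.inr.injEq] at h2
      subst h2
      induction e using Sym2.ind with
      | _ a b => exact h (he a (Sym2.mem_mk_left a b)) (he' a (Sym2.mem_mk_left a b))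

end Dat

end

end Pool.Agent.W783.PC
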