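import Pool.Agent.W783.Perc.Stmts

set_option autoImplicit false

open MeasureTheory Set

/-!
Step 2, deterministic part: rows, superblocks and cells.
-/

namespace Pool.Agent.W783.PC

noncomputable section

variable {n : ℕ}

/-- Base point of the block `(i, j)`. -/
def zz (n m N : ℕ) (i j : ℤ) : V n := (10 * N * j, (i * m) • e1 n)

/-- Segment of the block `(i, j)`. -/
def sg (m N : ℕ) (u : Fin n → ℤ) (i j : ℤ) : Finset (V n) := seg (zz n m N i j + (0, u)) N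

/-- Region of the block `(i, j)`. -/
def Rgn (n m N M : ℕ) (i j : ℤ) : Set (V n) :=
  Bx (zz n m N i j) (-2 * N) (8 * N) (-2 * M) (3 * M)

/-- The geometric data. -/
structure Dat (n : ℕ) where
  m : ℕ
  N : ℕ
  M : ℕ
  J : ℕ
  κ : ℝ
  u : Fin n → ℤ
  hn : 1 ≤ n
  hm : 1 ≤ m
  hN : 1 ≤ N
  hM : m ≤ M
  hJ : 1 ≤ J
  hκ : 0 < κ
  hu : ∀ i, (m : ℤ) ∣ u i ∧ 0 ≤ u i ∧ u i < M

namespace Dat

variable (d : Dat n)

/-- The bonds used. -/
def E : Set (Sym2 (V n)) := Ed d.m (20 * d.N * d.J)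

/-- segments and regions -/
def sg' (i j : ℤ) : Finset (V n) := sg d.m d.N d.u i j
def R (i j : ℤ) : Set (V n) := Rgn n d.m d.N d.M i j

/-- Candidates of the superblock `(i, b)`. -/
def Cd (ω : Cfg n) (i b : ℤ) : Set (ℤ × V n) :=
  {q | b * d.J ≤ q.1 ∧ q.1 < (b + 1) * d.J ∧ q.2 ∈ d.sg' i q.1 ∧
    d.κ * d.N ≤ cnt d.E d.m d.N ω (zz n d.m d.N i q.1 + (0, d.u)) (d.R i q.1) q.2}

open scoped Classical in
/-- A choice of an element. -/
def pick (S : Set (ℤ × V n)) : ℤ × V n := if h : S.Nonempty then h.some else (0, 0)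

/-- The chosen candidate. -/
def ch (ω : Cfg n) (i b : ℤ) : ℤ × V n := pick (d.Cd ω i b)

open scoped Classical in
/-- The marked vertices of the chosen cluster. -/
def Wf (ω : Cfg n) (i b : ℤ) : Finset (V n) :=
  if (d.Cd ω i b).Nonempty then
    (d.sg' i (d.ch ω i b).1).filter (fun y =>
      (G d.E ω (d.R i (d.ch ω i b).1)).Reachable (d.ch ω i b).2 y ∧ Fop d.m ω y)
  else ∅

/-- upward translation -/
def upE (m : ℕ) : V n ↪ V n := ⟨fun x => upv x m, fun x y h => by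
  unfold upv at h
  have h1 := congrArg Prod.fst h
  have h2 := congrArg Prod.snd h
  simp only at h1 h2
  exact Prod.ext h1 (add_right_cancel h2)⟩

/-- The marked vertices, moved to the next row. -/
def Wu (ω : Cfg n) (i b : ℤ) : Finset (V n) := (d.Wf ω i b).map (upE d.m)

/-- two sets are linked by an open bond -/
def lk (ω : Cfg n) (X Y : Finset (V n)) : Prop := ∃ y ∈ X, ∃ z ∈ Y, ω (Sum.inr s(y, z)) = true

/-- the row event -/
def rowOK (ω : Cfg n) (i b : ℤ) : Prop :=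
  (d.Cd ω i b).Nonempty ∧ (d.Cd ω i (b + 1)).Nonempty ∧
    lk ω (d.Wf ω i b) (d.Wf ω i (b + 1)) ∧
    ((d.Cd ω (i - 1) b).Nonempty → lk ω (d.Wu ω (i - 1) b) (d.Wf ω i (b + 1)))

/-- number of rows of a cell -/
def D : ℤ := 2 * d.M

/-- the bad event of a cell -/
def Bc (v : ℤ × ℤ) : Set (Cfg n) := {ω | ∃ i, d.D * v.2 ≤ i ∧ i ≤ d.D * (v.2 + 1) ∧ ¬ d.rowOK ω i v.1}

/-- the region on which the cell event depends -/
def Q (v : ℤ × ℤ) : Set (V n) :=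
  {x | 10 * d.N * d.J * v.1 - 2 * d.N ≤ x.1 ∧ x.1 < 10 * d.N * d.J * (v.1 + 2) - 2 * d.N ∧
    ∀ i, (d.D * v.2 - 1) * d.m * e1 n i - 2 * d.M ≤ x.2 i ∧
      x.2 i < (d.D * v.2 + d.D) * d.m * e1 n i + 3 * d.M}

lemma hM1 : 1 ≤ d.M := d.hm.trans d.hM

lemma mem_seg {z x : V n} {N : ℕ} : x ∈ seg z N ↔
    (z.1 ≤ x.1 ∧ x.1 < z.1 + N) ∧ x.2 = z.2 := by
  unfold seg
  rw [Finset.mem_map]
  constructor
  · rintro ⟨t, ht, rfl⟩
    rw [Finset.mem_range] at ht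
    refine ⟨⟨?_, ?_⟩, rfl⟩
    · show z.1 ≤ z.1 + (t : ℤ)
      omega
    · show z.1 + (t : ℤ) < z.1 + N
      omega
  · rintro ⟨⟨h1, h2⟩, h3⟩
    refine ⟨(x.1 - z.1).toNat, ?_, ?_⟩
    · rw [Finset.mem_range]; omega
    · show (z.1 + (((x.1 - z.1).toNat : ℕ) : ℤ), z.2) = x
      rw [Int.toNat_of_nonneg (by linarith)]
      apply Prod.ext
      · simp
      · exact h3.symm

lemma mem_sg {i j : ℤ} {x : V n} : x ∈ d.sg' i j ↔
    (10 * d.N * j ≤ x.1 ∧ x.1 < 10 * d.N * j + d.N) ∧ x.2 = (i * d.m) • e1 n + d.u := by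
  unfold sg' sg
  rw [mem_seg]
  simp [zz]

lemma e1_zero (hn : 1 ≤ n) : e1 n ⟨0, hn⟩ = 1 := by simp [e1]

lemma e1_cases (i : Fin n) : e1 n i = 0 ∨ e1 n i = 1 := by
  unfold e1; split_ifs <;> simp

lemma mem_R {i j : ℤ} {x : V n} : x ∈ d.R i j ↔
    (10 * d.N * j - 2 * d.N ≤ x.1 ∧ x.1 < 10 * d.N * j + 8 * d.N) ∧
      ∀ k, i * d.m * e1 n k - 2 * d.M ≤ x.2 k ∧ x.2 k < i * d.m * e1 n k + 3 * d.M := by
  unfold R Rgn Bx zz
  simp only [mem_ofPred_eq, Pi.smul_apply, smul_eq_mul, neg_mul, ← sub_eq_add_neg, and_assoc]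

/-- the chosen candidate is a candidate -/
lemma ch_mem {ω : Cfg n} {i b : ℤ} (h : (d.Cd ω i b).Nonempty) : d.ch ω i b ∈ d.Cd ω i b := by
  unfold ch pick
  rw [dif_pos h]
  exact h.some_mem

lemma mem_Wf {ω : Cfg n} {i b : ℤ} {y : V n} (hy : y ∈ d.Wf ω i b) :
    (d.Cd ω i b).Nonempty ∧ y ∈ d.sg' i (d.ch ω i b).1 ∧
      (G d.E ω (d.R i (d.ch ω i b).1)).Reachable (d.ch ω i b).2 y ∧ Fop d.m ω y := by
  classical
  unfold Wf at hy
  split_ifs at hy with h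
  · rw [Finset.mem_filter] at hy
    exact ⟨h, hy.1, hy.2⟩
  · simp at hy

lemma card_Wf {ω : Cfg n} {i b : ℤ} (h : (d.Cd ω i b).Nonempty) :
    d.κ * d.N ≤ (d.Wf ω i b).card := by
  have h1 := (d.ch_mem h).2.2.2
  unfold cnt at h1
  unfold Wf
  rw [if_pos h]
  exact h1

lemma card_Wu (ω : Cfg n) (i b : ℤ) : (d.Wu ω i b).card = (d.Wf ω i b).card := by
  unfold Wu
  rw [Finset.card_map]

/-- The graph is monotone in the region. -/
lemma G_mono {E : Set (Sym2 (V n))} (ω : Cfg n) {R R' : Set (V n)} (h : R ⊆ R') :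
    G E ω R ≤ G E ω R' := by
  intro x y hxy
  obtain ⟨h1, h2, h3, h4⟩ := hxy
  exact ⟨h1, h h2, h h3, h4⟩

lemma reach_univ {E : Set (Sym2 (V n))} {ω : Cfg n} {R : Set (V n)} {x y : V n}
    (h : (G E ω R).Reachable x y) : (G E ω univ).Reachable x y :=
  h.mono (G_mono ω (subset_univ _))

lemma NN_upv (x : V n) (hn : 1 ≤ n) (j : ℤ) : NN (upv x j) (upv x (j + 1)) := by
  unfold NN upv
  simp only [sub_self, abs_zero, zero_add, Pi.add_apply, Pi.smul_apply, smul_eq_mul]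
  have : ∀ i : Fin n, |x.2 i + j * e1 n i - (x.2 i + (j + 1) * e1 n i)| = if (i : ℕ) = 0 then 1 else 0 := by
    intro i
    unfold e1
    split_ifs with h
    · simp
    · simp
  rw [Finset.sum_congr rfl (fun i _ => this i)]
  rw [Finset.sum_eq_single (⟨0, hn⟩ : Fin n)]
  · simp
  · intro b _ hb
    rw [if_neg]
    intro h
    exact hb (Fin.ext h)
  · intro h
    exact absurd (Finset.mem_univ _) h

lemma NN_mem_E {x y : V n} (h : NN x y) : s(x, y) ∈ d.E := Or.inl ⟨x, y, rfl, h⟩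

/-- the straight path of `Fop` -/
lemma Fop_reach {ω : Cfg n} {x : V n} (h : Fop d.m ω x) (j : ℕ) (hj : j ≤ d.m) :
    (G d.E ω univ).Reachable x (upv x j) := by
  induction j with
  | zero => 
    have : upv x ((0 : ℕ) : ℤ) = x := by simp [upv]
    rw [this]
  | succ j ih =>
    refine (ih (by omega)).trans ?_
    apply SimpleGraph.Adj.reachable
    have h1 := h.1 j (by omega)
    have h2 := h.1 (j + 1) hj
    have h3 := h.2 j (by omega)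
    push_cast at h2 ⊢
    refine ⟨?_, mem_univ _, mem_univ _, d.NN_mem_E (NN_upv x d.hn j), h1, h2, h3⟩
    intro he
    have := NN_upv x d.hn (j : ℤ)
    rw [← he] at this
    unfold NN at this
    simp at this

lemma upv_zero (x : V n) : upv x ((0 : ℕ) : ℤ) = x := by simp [upv]

lemma Fop_site {ω : Cfg n} {x : V n} (h : Fop d.m ω x) : ω (Sum.inl x) = true := by
  have := h.1 0 (Nat.zero_le _)
  rwa [upv_zero] at this

/-- location of the vertices of `Wf` -/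
lemma Wf_loc {ω : Cfg n} {i b : ℤ} {y : V n} (hy : y ∈ d.Wf ω i b) :
    ∃ j, b * d.J ≤ j ∧ j < (b + 1) * d.J ∧ 10 * d.N * j ≤ y.1 ∧ y.1 < 10 * d.N * j + d.N ∧
      y.2 = (i * d.m) • e1 n + d.u := by
  obtain ⟨h1, h2, _, _⟩ := d.mem_Wf hy
  obtain ⟨h3, h4, _, _⟩ := d.ch_mem h1
  rw [d.mem_sg] at h2
  exact ⟨_, h3, h4, h2.1.1, h2.1.2, h2.2⟩

lemma Wu_loc {ω : Cfg n} {i b : ℤ} {y : V n} (hy : y ∈ d.Wu ω (i - 1) b) :
    ∃ j, b * d.J ≤ j ∧ j < (b + 1) * d.J ∧ 10 * d.N * j ≤ y.1 ∧ y.1 < 10 * d.N * j + d.N ∧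
      y.2 = (i * d.m) • e1 n + d.u := by
  unfold Wu at hy
  rw [Finset.mem_map] at hy
  obtain ⟨x, hx, rfl⟩ := hy
  obtain ⟨j, h1, h2, h3, h4, h5⟩ := d.Wf_loc hx
  refine ⟨j, h1, h2, h3, h4, ?_⟩
  show x.2 + (d.m : ℤ) • e1 n = _
  rw [h5]
  ext k
  simp only [Pi.add_apply, Pi.smul_apply, smul_eq_mul]
  ring

/-- bounds for the distance of two vertices in consecutive superblocks -/
lemma dist_bd {b : ℤ} {y z : V n} {j j' : ℤ} (h1 : b * d.J ≤ j) (h2 : j < (b + 1) * d.J)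
    (h3 : 10 * d.N * j ≤ y.1) (h4 : y.1 < 10 * d.N * j + d.N) (h1' : (b + 1) * d.J ≤ j')
    (h2' : j' < (b + 1 + 1) * d.J)
    (h3' : 10 * d.N * j' ≤ z.1) (h4' : z.1 < 10 * d.N * j' + d.N) :
    2 ≤ z.1 - y.1 ∧ z.1 - y.1 ≤ 20 * d.N * d.J := by
  have hN : (1 : ℤ) ≤ d.N := by exact_mod_cast d.hN
  have hJ : (1 : ℤ) ≤ d.J := by exact_mod_cast d.hJ
  have a1 : j + 1 ≤ j' := by linarith
  have a2 : 10 * (d.N : ℤ) * (j + 1) ≤ 10 * d.N * j' := by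
    apply mul_le_mul_of_nonneg_left a1; positivity
  have a3 : j' - j ≤ 2 * d.J - 1 := by nlinarith
  have a4 : 10 * (d.N : ℤ) * (j' - j) ≤ 10 * d.N * (2 * d.J - 1) := by
    apply mul_le_mul_of_nonneg_left a3; positivity
  constructor
  · nlinarith
  · nlinarith

/-- A link bond of the row `i` between consecutive superblocks is an admissible bond. -/
lemma link_mem {b i : ℤ} {y z : V n} {j j' : ℤ} (h1 : b * d.J ≤ j) (h2 : j < (b + 1) * d.J)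
    (h3 : 10 * d.N * j ≤ y.1) (h4 : y.1 < 10 * d.N * j + d.N)
    (h5 : y.2 = (i * d.m) • e1 n + d.u) (h1' : (b + 1) * d.J ≤ j')
    (h2' : j' < (b + 1 + 1) * d.J)
    (h3' : 10 * d.N * j' ≤ z.1) (h4' : z.1 < 10 * d.N * j' + d.N)
    (h5' : z.2 = (i * d.m) • e1 n + d.u) :
    Lg d.m y z ∧ (y.1 - z.1).natAbs ≤ 20 * d.N * d.J := by
  obtain ⟨a1, a2⟩ := d.dist_bd h1 h2 h3 h4 h1' h2' h3' h4'
  refine ⟨⟨h5.trans h5'.symm, ?_, ?_⟩, ?_⟩
  · intro k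
    rw [h5]
    simp only [Pi.add_apply, Pi.smul_apply, smul_eq_mul]
    refine dvd_add ?_ (d.hu k).1
    exact Dvd.intro_left (i * e1 n k) (by ring)
  · omega
  · have : ((y.1 - z.1).natAbs : ℤ) ≤ 20 * d.N * d.J := by
      rw [Int.natCast_natAbs, abs_le]
      constructor <;> linarith
    exact_mod_cast this

lemma Wf_reach {ω : Cfg n} {i b : ℤ} {y : V n} (hy : y ∈ d.Wf ω i b) :
    (G d.E ω univ).Reachable (d.ch ω i b).2 y ∧ ω (Sum.inl y) = true := by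
  obtain ⟨h1, h2, h3, h4⟩ := d.mem_Wf hy
  exact ⟨reach_univ h3, d.Fop_site h4⟩

lemma Wu_reach {ω : Cfg n} {i b : ℤ} {y : V n} (hy : y ∈ d.Wu ω i b) :
    (G d.E ω univ).Reachable (d.ch ω i b).2 y ∧ ω (Sum.inl y) = true := by
  unfold Wu at hy
  rw [Finset.mem_map] at hy
  obtain ⟨x, hx, rfl⟩ := hy
  obtain ⟨h1, h2, h3, h4⟩ := d.mem_Wf hx
  exact ⟨(reach_univ h3).trans (d.Fop_reach h4 d.m le_rfl), h4.1 d.m le_rfl⟩

/-- linked sets in consecutive superblocks -/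
lemma lk_reach {ω : Cfg n} {i b : ℤ} {X : Finset (V n)} {c : V n}
    (hX : ∀ y ∈ X, ((G d.E ω univ).Reachable c y ∧ ω (Sum.inl y) = true) ∧
      ∃ j, b * d.J ≤ j ∧ j < (b + 1) * d.J ∧ 10 * d.N * j ≤ y.1 ∧ y.1 < 10 * d.N * j + d.N ∧
      y.2 = (i * d.m) • e1 n + d.u)
    (h : lk ω X (d.Wf ω i (b + 1))) :
    (G d.E ω univ).Reachable c (d.ch ω i (b + 1)).2 := by
  obtain ⟨y, hy, z, hz, hyz⟩ := h
  obtain ⟨⟨h1, h2⟩, j, h3, h4, h5, h6, h7⟩ := hX y hy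
  obtain ⟨h1', h2'⟩ := d.Wf_reach hz
  obtain ⟨j', h3', h4', h5', h6', h7'⟩ := d.Wf_loc hz
  obtain ⟨a1, a2⟩ := d.link_mem h3 h4 h5 h6 h7 h3' h4' h5' h6' h7'
  refine h1.trans ((SimpleGraph.Adj.reachable ?_).trans h1'.symm)
  refine ⟨?_, mem_univ _, mem_univ _, Or.inr ⟨⟨y, z, rfl, a1⟩, a2⟩, h2, h2', hyz⟩
  rintro rfl
  have := a1.2.2
  simp at this

lemma row_right {ω : Cfg n} {i b : ℤ} (h : d.rowOK ω i b) :
    (G d.E ω univ).Reachable (d.ch ω i b).2 (d.ch ω i (b + 1)).2 :=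
  d.lk_reach (fun _ hy => ⟨d.Wf_reach hy, d.Wf_loc hy⟩) h.2.2.1

lemma row_up {ω : Cfg n} {i b : ℤ} (h : d.rowOK ω i b) (h' : (d.Cd ω (i - 1) b).Nonempty) :
    (G d.E ω univ).Reachable (d.ch ω (i - 1) b).2 (d.ch ω i b).2 :=
  (d.lk_reach (fun _ hy => ⟨d.Wu_reach hy, d.Wu_loc hy⟩) (h.2.2.2 h')).trans (d.row_right h).symm

/-- the vertex of a cell -/
def cv (ω : Cfg n) (v : ℤ × ℤ) : V n := (d.ch ω (d.D * v.2) v.1).2

/-- the cell has a candidate in its lowest row -/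
def hasC (ω : Cfg n) (v : ℤ × ℤ) : Prop := (d.Cd ω (d.D * v.2) v.1).Nonempty

lemma D_pos : 1 ≤ d.D := by
  have : (1 : ℤ) ≤ d.M := by exact_mod_cast d.hM1
  unfold D; omega

lemma good_row {ω : Cfg n} {v : ℤ × ℤ} (h : ω ∉ d.Bc v) (i : ℤ) (h1 : d.D * v.2 ≤ i)
    (h2 : i ≤ d.D * (v.2 + 1)) : d.rowOK ω i v.1 := by
  by_contra hc
  exact h ⟨i, h1, h2, hc⟩

lemma cell_right {ω : Cfg n} {v : ℤ × ℤ} (h : ω ∉ d.Bc v) :
    (G d.E ω univ).Reachable (d.cv ω v) (d.cv ω (v.1 + 1, v.2)) ∧ d.hasC ω (v.1 + 1, v.2) := by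
  have hD := d.D_pos
  have h1 := d.good_row h (d.D * v.2) le_rfl (by nlinarith)
  exact ⟨d.row_right h1, h1.2.1⟩

lemma cell_up {ω : Cfg n} {v : ℤ × ℤ} (h : ω ∉ d.Bc v) :
    (G d.E ω univ).Reachable (d.cv ω v) (d.cv ω (v.1, v.2 + 1)) ∧ d.hasC ω (v.1, v.2 + 1) := by
  have hD := d.D_pos
  have key : ∀ k : ℕ, (k : ℤ) ≤ d.D →
      (G d.E ω univ).Reachable (d.cv ω v) (d.ch ω (d.D * v.2 + k) v.1).2 ∧
        (d.Cd ω (d.D * v.2 + k) v.1).Nonempty := by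
    intro k
    induction k with
    | zero =>
      intro _
      have h1 := d.good_row h (d.D * v.2) le_rfl (by nlinarith)
      refine ⟨?_, ?_⟩
      · simp only [Nat.cast_zero, add_zero]
        exact SimpleGraph.Reachable.refl _
      · simp only [Nat.cast_zero, add_zero]
        exact h1.1
    | succ k ih =>
      intro hk
      push_cast at hk
      obtain ⟨h1, h2⟩ := ih (by linarith)
      have h3 := d.good_row h (d.D * v.2 + ((k : ℤ) + 1)) (by linarith [Int.natCast_nonneg k])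
        (by nlinarith)
      have e : d.D * v.2 + ((k : ℤ) + 1) - 1 = d.D * v.2 + k := by ring
      push_cast
      refine ⟨h1.trans ?_, h3.1⟩
      have := d.row_up h3 (by rw [e]; exact h2)
      rwa [e] at this
  obtain ⟨k, hk⟩ : ∃ k : ℕ, (k : ℤ) = d.D := ⟨d.D.toNat, Int.toNat_of_nonneg (by omega)⟩
  obtain ⟨h1, h2⟩ := key k hk.le
  have e : d.D * v.2 + (k : ℤ) = d.D * (v.2 + 1) := by rw [hk]; ring
  rw [e] at h1 h2
  exact ⟨h1, h2⟩

open Pool.Agent.H592F in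
/-- wet cells are connected to the origin cell -/
lemma wet_reach {ω : Cfg n} {v : ℤ × ℤ} (h : Wet (fun v => ω ∈ d.Bc v) v) :
    (G d.E ω univ).Reachable (d.cv ω (0, 0)) (d.cv ω v) ∧ (v = (0, 0) ∨ d.hasC ω v) ∧
      0 ≤ v.1 ∧ 0 ≤ v.2 := by
  induction h with
  | zero => exact ⟨SimpleGraph.Reachable.refl _, Or.inl rfl, le_rfl, le_rfl⟩
  | right h1 h2 ih =>
    obtain ⟨a1, a2⟩ := d.cell_right h2
    exact ⟨ih.1.trans a1, Or.inr a2, by have := ih.2.2.1; simp only; omega, ih.2.2.2⟩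
  | up h1 h2 ih =>
    obtain ⟨a1, a2⟩ := d.cell_up h2
    exact ⟨ih.1.trans a1, Or.inr a2, ih.2.2.1, by have := ih.2.2.2; simp only; omega⟩

/-- position of the vertex of a cell -/
lemma cv_pos {ω : Cfg n} {v : ℤ × ℤ} (h : d.hasC ω v) (h1 : 0 ≤ v.1) (h2 : 0 ≤ v.2) :
    v.1 + v.2 ≤ (d.cv ω v).1 + (d.cv ω v).2 ⟨0, d.hn⟩ := by
  obtain ⟨a1, a2, a3, _⟩ := d.ch_mem h
  rw [d.mem_sg] at a3
  obtain ⟨⟨a4, a5⟩, a6⟩ := a3
  have hN : (1 : ℤ) ≤ d.N := by exact_mod_cast d.hN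
  have hJ : (1 : ℤ) ≤ d.J := by exact_mod_cast d.hJ
  have hm : (1 : ℤ) ≤ d.m := by exact_mod_cast d.hm
  have hD := d.D_pos
  have b1 : v.1 ≤ (d.cv ω v).1 := by
    have : v.1 ≤ (d.ch ω (d.D * v.2) v.1).1 := by nlinarith
    unfold cv
    nlinarith
  have b2 : v.2 ≤ (d.cv ω v).2 ⟨0, d.hn⟩ := by
    unfold cv
    rw [a6]
    simp only [Pi.add_apply, Pi.smul_apply, smul_eq_mul, e1_zero d.hn, mul_one]
    have := (d.hu ⟨0, d.hn⟩).2.1
    have h3 : v.2 ≤ d.D * v.2 := by nlinarith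
    have h4 : d.D * v.2 ≤ d.D * v.2 * d.m := by nlinarith [mul_nonneg (by omega : (0:ℤ) ≤ d.D) h2]
    linarith
  linarith

open Pool.Agent.H592F in
/-- safe cells at all levels give percolation -/
theorem perc_of_safe {ω : Cfg n} (h : ∀ k, safe (bad (fun v => ω ∈ d.Bc v) k) (0, 0)) :
    ω ∈ Perc d.E (d.cv ω (0, 0)) := by
  show (cl d.E ω univ (d.cv ω (0, 0))).Infinite
  intro hfin
  obtain ⟨L, hL⟩ := (hfin.image (fun x : V n => x.1 + x.2 ⟨0, d.hn⟩)).bddAbove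
  obtain ⟨x, hx, hsum⟩ := perc_det _ h (L.toNat + 1)
  obtain ⟨h1, h2, h3, h4⟩ := d.wet_reach hx
  have hL0 : L < x.1 + x.2 := by
    have := Int.self_le_toNat L
    push_cast at hsum
    linarith
  rcases h2 with h2 | h2
  · rw [h2] at hsum
    simp only [add_zero] at hsum
    omega
  · have h5 := d.cv_pos h2 h3 h4
    have h6 : (d.cv ω x).1 + (d.cv ω x).2 ⟨0, d.hn⟩ ≤ L := hL ⟨_, h1, rfl⟩
    linarith

end Dat

end

end Pool.Agent.W783.PC
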