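import Pool.Agent.W783.Perc.Stmts2

set_option autoImplicit false

open MeasureTheory Set

/-!
More statements: small long-range intensity, upper semicontinuity.
-/

namespace Pool.Agent.W783.PC

noncomputable section

/-- LOWB: the criterion `phi < 1` is stable under switching on weak long bonds, uniformly in the
base point. -/
def S_lowb : Prop := ∀ (n m : ℕ) (p : unitInterval) (s : ℝ), 1 < s → ∀ S : Finset (V n), 0 ∈ S →
  phi p 0 s m S 0 < 1 → ∃ (β0 : NNReal) (ρ : ℝ), 0 < β0 ∧ ρ < 1 ∧ ∀ β : NNReal, β ≤ β0 →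
  ∀ x : V n, phi p β s m (S.map (addRightEmbedding x)) x ≤ ρ

/-- LOWBS: the same for site percolation. -/
def S_lowbS : Prop := ∀ (n m : ℕ) (a : unitInterval) (s : ℝ), 1 < s → ∀ S : Finset (V n), 0 ∈ S →
  phiS a 0 s m S 0 < 1 → ∃ (β0 : NNReal) (ρ : ℝ), 0 < β0 ∧ ρ < 1 ∧ ∀ β : NNReal, β ≤ β0 →
  ∀ x : V n, phiS a β s m (S.map (addRightEmbedding x)) x ≤ ρ

/-- USC: the percolation probability is upper semicontinuous in the parameters `a`, `p`. -/
def S_usc : Prop := ∀ (n m : ℕ) (a p : unitInterval) (β : NNReal) (s : ℝ), 1 < s →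
  ∀ ε : ℝ, 0 < ε → ∃ δ : ℝ, 0 < δ ∧ ∀ a' p' : unitInterval, |(a' : ℝ) - a| ≤ δ →
  |(p' : ℝ) - p| ≤ δ →
  (pm (prob (n := n) a' p' β s m)).real (Perc (EdI m) 0) ≤
    (pm (prob (n := n) a p β s m)).real (Perc (EdI m) 0) + ε

/-- NNEQ: for `β = 0` the model is nearest-neighbour percolation. -/
def S_nneq : Prop := ∀ (n m : ℕ) (a p : unitInterval) (s : ℝ),
  (pm (prob (n := n) a p 0 s m)).real (Perc (EdI m) 0) =
    (pm (fun c : Ix n => match c with | Sum.inl _ => a | Sum.inr _ => p)).real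
      (Perc {e : Sym2 (V n) | isNN e} 0)

end

end Pool.Agent.W783.PC
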