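import Pool.Agent.W783.Perc.Open
import Pool.Agent.W783.Perc.Stmts3
import Pool.Agent.W308.PC.High
import Pool.Agent.W376.PC.Low
import Pool.Agent.W424.PC.Dct

set_option autoImplicit false

open MeasureTheory Set Filter
open scoped Topology

/-!
Critical points.
-/

namespace Pool.Agent.W783.PC

noncomputable section

/-- The critical point of a one-parameter family: `sup {q : f q = 0}` (`0` if there is no such
`q`). -/
def crit (f : unitInterval → ℝ) : unitInterval :=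
  ⟨sSup {x : ℝ | ∃ q : unitInterval, (q : ℝ) = x ∧ f q = 0}, by
    constructor
    · apply Real.sSup_nonneg
      rintro x ⟨q, rfl, _⟩
      exact q.2.1
    · apply Real.sSup_le
      · rintro x ⟨q, rfl, _⟩
        exact q.2.2
      · exact zero_le_one⟩

lemma crit_bdd (f : unitInterval → ℝ) :
    BddAbove {x : ℝ | ∃ q : unitInterval, (q : ℝ) = x ∧ f q = 0} :=
  ⟨1, by rintro x ⟨q, rfl, _⟩; exact q.2.2⟩

lemma le_crit {f : unitInterval → ℝ} {q : unitInterval} (h : f q = 0) : q ≤ crit f :=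
  le_csSup (crit_bdd f) ⟨q, rfl, h⟩

lemma exists_of_lt_crit {f : unitInterval → ℝ} {x : ℝ} (hx : 0 ≤ x) (h : x < crit f) :
    ∃ q : unitInterval, x < q ∧ q ≤ crit f ∧ f q = 0 := by
  have hne : {x : ℝ | ∃ q : unitInterval, (q : ℝ) = x ∧ f q = 0}.Nonempty := by
    by_contra hc
    rw [Set.not_nonempty_iff_eq_empty] at hc
    have : (crit f : ℝ) = 0 := by
      show sSup {x : ℝ | ∃ q : unitInterval, (q : ℝ) = x ∧ f q = 0} = 0
      rw [hc, Real.sSup_empty]
    linarith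
  obtain ⟨y, ⟨q, rfl, hq⟩, hy⟩ := exists_lt_of_lt_csSup hne h
  exact ⟨q, hy, le_crit hq, hq⟩

lemma crit_le {f : unitInterval → ℝ} {x : ℝ} (hx : 0 ≤ x) (h : ∀ q : unitInterval, f q = 0 → (q : ℝ) ≤ x) :
    (crit f : ℝ) ≤ x := by
  apply Real.sSup_le
  · rintro y ⟨q, rfl, hq⟩
    exact h q hq
  · exact hx

/-- openness at the critical point forces vanishing -/
lemma crit_zero {f : unitInterval → ℝ} (hpos : 0 < crit f) (δ : ℝ) (hδ : 0 < δ)
    (h : ∀ q : unitInterval, |(q : ℝ) - crit f| ≤ δ → f q ≠ 0) : False := by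
  have hpos' : 0 < (crit f : ℝ) := hpos
  obtain ⟨q, h1, h2, h3⟩ := exists_of_lt_crit (f := f) (x := max ((crit f : ℝ) - δ) 0)
    (le_max_right _ _) (max_lt (by linarith) hpos')
  have h2' : (q : ℝ) ≤ crit f := h2
  refine h q ?_ h3
  rw [abs_le]
  constructor
  · have := le_max_left ((crit f : ℝ) - δ) 0
    linarith
  · linarith

variable {n : ℕ}

lemma theta_nonneg (a p : unitInterval) (β : NNReal) (s : ℝ) (m : ℕ) : 0 ≤ theta n a p β s m :=
  measureReal_nonneg

lemma lrp_mono {β β' : NNReal} (h : β ≤ β') (s : ℝ) (k : ℕ) : lrp β s k ≤ lrp β' s k := by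
  show 1 - Real.exp (-((β : ℝ) * (k : ℝ) ^ (-s))) ≤ 1 - Real.exp (-((β' : ℝ) * (k : ℝ) ^ (-s)))
  have h1 : (β : ℝ) ≤ β' := h
  have h2 : 0 ≤ (k : ℝ) ^ (-s) := Real.rpow_nonneg (Nat.cast_nonneg _) _
  have h3 := mul_le_mul_of_nonneg_right h1 h2
  have := Real.exp_le_exp.mpr (neg_le_neg h3)
  linarith

lemma prob_mono {a a' p p' : unitInterval} {β β' : NNReal} (ha : a ≤ a') (hp : p ≤ p')
    (hβ : β ≤ β') (s : ℝ) (m : ℕ) (c : Ix n) : prob a p β s m c ≤ prob a' p' β' s m c := by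
  rcases c with v | e
  · exact ha
  · by_cases h1 : isNN e
    · rw [prob_nn _ _ _ _ _ h1, prob_nn _ _ _ _ _ h1]
      exact hp
    · by_cases h2 : isLg m e
      · rw [prob_lg _ _ _ _ _ h1 h2, prob_lg _ _ _ _ _ h1 h2]
        exact lrp_mono hβ s _
      · rw [prob_no _ _ _ _ _ h1 h2, prob_no _ _ _ _ _ h1 h2]

lemma theta_mono {a a' p p' : unitInterval} {β β' : NNReal} (ha : a ≤ a') (hp : p ≤ p')
    (hβ : β ≤ β') (s : ℝ) (m : ℕ) : theta n a p β s m ≤ theta n a' p' β' s m :=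
  ENNReal.toReal_mono (measure_ne_top _ _)
    (Pool.Agent.W400.PC.s_mono _ _ _ _ (fun c => prob_mono ha hp hβ s m c) (Perc_inc _ _)
      (Pool.Agent.W975.PC.s_perc_meas _ _ _))

lemma thetaK_mono {a a' p p' : unitInterval} {β β' : NNReal} (ha : a ≤ a') (hp : p ≤ p')
    (hβ : β ≤ β') (s : ℝ) (m : ℕ) {K K' : ℕ} (hK : K ≤ K') :
    thetaK n a p β s m K ≤ thetaK n a' p' β' s m K' := by
  refine le_trans (ENNReal.toReal_mono (measure_ne_top _ _)
    (Pool.Agent.W400.PC.s_mono _ _ _ _ (fun c => prob_mono ha hp hβ s m c) (Perc_inc _ _)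
      (Pool.Agent.W975.PC.s_perc_meas _ _ _))) ?_
  exact measureReal_mono (Perc_monoE (Ed_mono m hK) 0) (measure_ne_top _ _)

/-! ### Bond percolation -/

/-- Critical point of bond percolation with long-range intensity `β`. -/
def pcB (n m : ℕ) (s : ℝ) (β : NNReal) : unitInterval := crit (fun p => theta n 1 p β s m)

/-- Critical point of bond percolation when only bonds of length at most `K` are used. -/
def pcBK (n m : ℕ) (s : ℝ) (β : NNReal) (K : ℕ) : unitInterval :=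
  crit (fun p => thetaK n 1 p β s m K)

theorem pcB_lt_one (hn : 1 ≤ n) (m : ℕ) (s : ℝ) (β : NNReal) : (pcB n m s β : ℝ) < 1 := by
  obtain ⟨ε, hε, h⟩ := Pool.Agent.W308.PC.High.s_high
    (Pool.Agent.W573.PC.s_multi Pool.Agent.W45.PC.s_indep Pool.Agent.W45.PC.s_depmeas) n hn
  have h1 : (pcB n m s β : ℝ) ≤ max (1 - ε) 0 := by
    refine crit_le (le_max_right _ _) (fun q hq => ?_)
    by_contra hc
    push Not at hc
    have h2 := h m 1 q β s (by simp [hε.le]) (by
      have := le_max_left (1 - ε) 0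
      linarith)
    have h3 : theta n 1 q β s m = 0 := hq
    unfold theta at h3
    linarith
  have h2 : max (1 - ε) 0 < 1 := max_lt (by linarith) one_pos
  linarith

/-- **No percolation at the critical point**, bond percolation. -/
theorem bond_crit {m : ℕ} {s : ℝ} (hn : 1 ≤ n) (hm : 1 ≤ m) (hs : 1 < s) (hs2 : s < 2)
    {β : NNReal} (hβ : 0 < β) (hpc : 0 < pcB n m s β) : theta n 1 (pcB n m s β) β s m = 0 := by
  by_contra hc
  have hθ : 0 < theta n 1 (pcB n m s β) β s m := lt_of_le_of_ne (theta_nonneg _ _ _ _ _) (Ne.symm hc)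
  obtain ⟨K, δ, hδ, h⟩ := open_phase hn hm hs hs2 one_pos hpc hβ (by
    have := pcB_lt_one hn m s β
    simpa using this) hθ
  refine crit_zero (f := fun p => theta n 1 p β s m) hpc δ hδ (fun q hq => ?_)
  have h1 := h 1 q β (by simpa using hδ.le) hq (by simpa using hδ.le)
  have h2 := thetaK_le (n := n) 1 q β s m K
  have h3 : 0 < theta n 1 q β s m := lt_of_lt_of_le h1 h2
  exact h3.ne'

lemma theta_zero_of_small {m : ℕ} {s : ℝ} (hs : 1 < s) {a p : unitInterval} {β : NNReal}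
    (h : (a : ℝ) * (2 * (n + 1) * p + 2 * ∑' k : ℕ, (lrp β s (k + 2) : ℝ)) < 1) :
    theta n a p β s m = 0 :=
  Pool.Agent.W376.PC.s_low n m a p β s hs h 0

lemma lrp_zero (s : ℝ) (k : ℕ) : lrp 0 s k = 0 := by
  apply Subtype.ext
  show 1 - Real.exp (-(((0 : NNReal) : ℝ) * (k : ℝ) ^ (-s))) = 0
  simp

theorem pcB_zero_pos {m : ℕ} {s : ℝ} (hs : 1 < s) : 0 < pcB n m s 0 := by
  have hn : (0 : ℝ) < 4 * (n + 1) := by positivity
  have hq : (1 : ℝ) / (4 * (n + 1)) ∈ Icc (0 : ℝ) 1 := by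
    refine ⟨by positivity, ?_⟩
    rw [div_le_one hn]
    have : (0 : ℝ) ≤ n := Nat.cast_nonneg n
    linarith
  have h1 : theta n 1 ⟨_, hq⟩ 0 s m = 0 := by
    apply theta_zero_of_small hs
    simp only [lrp_zero]
    simp only [Set.Icc.coe_one, one_mul, Set.Icc.coe_zero, tsum_zero, mul_zero, add_zero]
    rw [mul_one_div, div_lt_one hn]
    have : (0 : ℝ) ≤ n := Nat.cast_nonneg n
    linarith
  have h2 : (⟨_, hq⟩ : unitInterval) ≤ pcB n m s 0 := le_crit h1
  refine lt_of_lt_of_le ?_ h2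
  show (0 : ℝ) < 1 / (4 * (n + 1))
  positivity

/-- monotonicity of the critical point in the long-range intensity -/
theorem pcB_anti (m : ℕ) (s : ℝ) {β β' : NNReal} (h : β ≤ β') : pcB n m s β' ≤ pcB n m s β := by
  show (pcB n m s β' : ℝ) ≤ pcB n m s β
  refine crit_le (pcB n m s β).2.1 (fun q hq => ?_)
  have h1 : theta n 1 q β s m = 0 := by
    apply le_antisymm _ (theta_nonneg _ _ _ _ _)
    have := theta_mono (n := n) (le_refl (1 : unitInterval)) (le_refl q) h s m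
    have h2 : theta n 1 q β' s m = 0 := hq
    linarith
  exact le_crit (f := fun p => theta n 1 p β s m) h1

/-- no percolation below the nearest-neighbour critical point for weak long-range bonds -/
theorem bond_low (hlow : S_lowb) {m : ℕ} {s : ℝ} (hn : 1 ≤ n) (hs : 1 < s) {p : unitInterval}
    (hp : p < pcB n m s 0) : ∃ β0 : NNReal, 0 < β0 ∧ ∀ β ≤ β0, theta n 1 p β s m = 0 := by
  have hp' : (p : ℝ) < pcB n m s 0 := hp
  obtain ⟨q, h1, h2, h3⟩ := exists_of_lt_crit (f := fun p => theta n 1 p 0 s m) p.2.1 hp'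
  have h1' : p < q := h1
  obtain ⟨S, hS0, hS1⟩ := Pool.Agent.W424.PC.s_dct Pool.Agent.W45.PC.s_indep
    Pool.Agent.W45.PC.s_depmeas Pool.Agent.W400.PC.s_mono Pool.Agent.W975.PC.s_reach_meas
    n m s p q hn h1' h3
  obtain ⟨β0, ρ, hβ0, hρ, h4⟩ := hlow n m p s hs S hS0 hS1
  refine ⟨β0, hβ0, fun β hβ => ?_⟩
  exact Pool.Agent.W402.PC.s_simon Pool.Agent.W45.PC.s_indep Pool.Agent.W45.PC.s_depmeas
    n m p β s hs S ρ hS0 hρ (h4 β hβ) 0

/-- **Convergence of the critical points.** -/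
theorem pcB_tendsto (hlow : S_lowb) {m : ℕ} {s : ℝ} (hn : 1 ≤ n) (hs : 1 < s) :
    Tendsto (fun β : NNReal => (pcB n m s β : ℝ)) (𝓝 0) (𝓝 (pcB n m s 0 : ℝ)) := by
  rw [Metric.tendsto_nhds]
  intro ε hε
  have hpos : (0 : ℝ) < pcB n m s 0 := pcB_zero_pos hs
  set x : ℝ := max ((pcB n m s 0 : ℝ) - ε / 2) 0
  have hx0 : 0 ≤ x := le_max_right _ _
  have hx1 : x < pcB n m s 0 := max_lt (by linarith) hpos
  have hx2 : x ≤ 1 := hx1.le.trans (pcB n m s 0).2.2
  obtain ⟨β0, hβ0, h⟩ := bond_low hlow (m := m) hn hs (p := ⟨x, hx0, hx2⟩) hx1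
  have hev : ∀ᶠ β : NNReal in 𝓝 0, β ≤ β0 := Iic_mem_nhds hβ0
  filter_upwards [hev] with β hβ
  have h1 : (⟨x, hx0, hx2⟩ : unitInterval) ≤ pcB n m s β := le_crit (h β hβ)
  have h1' : x ≤ pcB n m s β := h1
  have h2 : (pcB n m s β : ℝ) ≤ pcB n m s 0 := pcB_anti m s (zero_le)
  have h3 := le_max_left ((pcB n m s 0 : ℝ) - ε / 2) 0
  rw [Real.dist_eq, abs_lt]
  constructor <;> linarith

/-! ### Finite range -/

lemma pcB_le_pcBK (m : ℕ) (s : ℝ) (β : NNReal) (K : ℕ) : pcB n m s β ≤ pcBK n m s β K := by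
  show (pcB n m s β : ℝ) ≤ pcBK n m s β K
  refine crit_le (pcBK n m s β K).2.1 (fun q hq => ?_)
  refine le_crit (f := fun p => thetaK n 1 p β s m K) ?_
  have h1 := thetaK_le (n := n) 1 q β s m K
  have h2 : theta n 1 q β s m = 0 := hq
  exact le_antisymm (by linarith) measureReal_nonneg

/-- **Truncation of the critical point.** -/
theorem pcBK_tendsto {m : ℕ} {s : ℝ} (hn : 1 ≤ n) (hm : 1 ≤ m) (hs : 1 < s) (hs2 : s < 2)
    {β : NNReal} (hβ : 0 < β) (hpc : 0 < pcB n m s β) :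
    Tendsto (fun K : ℕ => (pcBK n m s β K : ℝ)) atTop (𝓝 (pcB n m s β : ℝ)) := by
  rw [Metric.tendsto_nhds]
  intro ε hε
  have hlt := pcB_lt_one hn m s β
  have hpos : (0 : ℝ) < pcB n m s β := hpc
  set x : ℝ := min ((pcB n m s β : ℝ) + ε / 2) (((pcB n m s β : ℝ) + 1) / 2)
  have hx1 : (pcB n m s β : ℝ) < x := lt_min (by linarith) (by linarith)
  have hx2 : x < 1 := lt_of_le_of_lt (min_le_right _ _) (by linarith)
  have hx3 : x ≤ (pcB n m s β : ℝ) + ε / 2 := min_le_left _ _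
  have hx0 : 0 < x := by linarith
  have hθ : 0 < theta n 1 ⟨x, hx0.le, hx2.le⟩ β s m := by
    apply lt_of_le_of_ne (theta_nonneg _ _ _ _ _)
    intro h0
    have h1 : (⟨x, hx0.le, hx2.le⟩ : unitInterval) ≤ pcB n m s β := le_crit h0.symm
    have h1' : x ≤ pcB n m s β := h1
    linarith
  obtain ⟨K, δ, hδ, h⟩ := open_phase hn hm hs hs2 one_pos (show (0 : unitInterval) < ⟨x, hx0.le, hx2.le⟩
    from hx0) hβ (by simpa using hx2) hθ
  have h1 := h 1 ⟨x, hx0.le, hx2.le⟩ β (by simpa using hδ.le) (by simpa using hδ.le)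
    (by simpa using hδ.le)
  filter_upwards [eventually_ge_atTop K] with K' hK'
  have h2 : (pcBK n m s β K' : ℝ) ≤ x := by
    refine crit_le hx0.le (fun q hq => ?_)
    by_contra hc
    push Not at hc
    have h3 := thetaK_mono (n := n) (le_refl (1 : unitInterval))
      (show (⟨x, hx0.le, hx2.le⟩ : unitInterval) ≤ q from hc.le) (le_refl β) s m hK'
    have h4 : thetaK n 1 q β s m K' = 0 := hq
    linarith
  have h3 : (pcB n m s β : ℝ) ≤ pcBK n m s β K' := pcB_le_pcBK m s β K'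
  rw [Real.dist_eq, abs_lt]
  constructor <;> linarith

/-- **The jump of the finite-range models tends to zero.** -/
theorem thetaK_tendsto (husc : S_usc) {m : ℕ} {s : ℝ} (hn : 1 ≤ n) (hm : 1 ≤ m) (hs : 1 < s)
    (hs2 : s < 2) {β : NNReal} (hβ : 0 < β) (hpc : 0 < pcB n m s β) :
    Tendsto (fun K : ℕ => thetaK n 1 (pcBK n m s β K) β s m K) atTop (𝓝 0) := by
  rw [Metric.tendsto_nhds]
  intro ε hε
  obtain ⟨δ, hδ, h⟩ := husc n m 1 (pcB n m s β) β s hs (ε / 2) (by positivity)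
  have h1 := (Metric.tendsto_nhds.mp (pcBK_tendsto hn hm hs hs2 hβ hpc)) δ hδ
  filter_upwards [h1] with K hK
  rw [Real.dist_eq] at hK
  have h2 := h 1 (pcBK n m s β K) (by simpa using hδ.le) hK.le
  have h3 : theta n 1 (pcB n m s β) β s m = 0 := bond_crit hn hm hs hs2 hβ hpc
  have h4 := thetaK_le (n := n) 1 (pcBK n m s β K) β s m K
  have h5 : 0 ≤ thetaK n 1 (pcBK n m s β K) β s m K := measureReal_nonneg
  unfold theta at h3 h4
  rw [Real.dist_eq, sub_zero, abs_of_nonneg h5]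
  linarith

end

end Pool.Agent.W783.PC
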