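import Pool.Agent.W783.Perc.Crit

set_option autoImplicit false

open MeasureTheory Set Filter
open scoped Topology

/-!
Critical points: site percolation.
-/

namespace Pool.Agent.W783.PC

noncomputable section

variable {n : ℕ}

/-- Critical point of site percolation with long-range intensity `β`. -/
def acS (n m : ℕ) (s : ℝ) (β : NNReal) : unitInterval := crit (fun a => theta n a 1 β s m)

/-- Critical point of site percolation when only bonds of length at most `K` are used. -/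
def acSK (n m : ℕ) (s : ℝ) (β : NNReal) (K : ℕ) : unitInterval :=
  crit (fun a => thetaK n a 1 β s m K)

theorem acS_lt_one (hn : 1 ≤ n) (m : ℕ) (s : ℝ) (β : NNReal) : (acS n m s β : ℝ) < 1 := by
  obtain ⟨ε, hε, h⟩ := Pool.Agent.W308.PC.High.s_high
    (Pool.Agent.W573.PC.s_multi Pool.Agent.W45.PC.s_indep Pool.Agent.W45.PC.s_depmeas) n hn
  have h1 : (acS n m s β : ℝ) ≤ max (1 - ε) 0 := by
    refine crit_le (le_max_right _ _) (fun q hq => ?_)
    by_contra hc
    push Not at hc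
    have h2 := h m q 1 β s (by
      have := le_max_left (1 - ε) 0
      linarith) (by simp [hε.le])
    have h3 : theta n q 1 β s m = 0 := hq
    unfold theta at h3
    linarith
  have h2 : max (1 - ε) 0 < 1 := max_lt (by linarith) one_pos
  linarith

theorem acS_pos {m : ℕ} {s : ℝ} (hs : 1 < s) (β : NNReal) : 0 < acS n m s β := by
  set T : ℝ := 2 * (n + 1) * ((1 : unitInterval) : ℝ) + 2 * ∑' k : ℕ, (lrp β s (k + 2) : ℝ) with hT
  have hT0 : 0 ≤ T := by
    have h1 : 0 ≤ ∑' k : ℕ, (lrp β s (k + 2) : ℝ) := tsum_nonneg (fun k => (lrp β s (k + 2)).2.1)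
    have h2 : (0 : ℝ) ≤ n := Nat.cast_nonneg n
    simp only [hT, Set.Icc.coe_one]
    positivity
  have hq : (1 : ℝ) / (T + 2) ∈ Icc (0 : ℝ) 1 := by
    refine ⟨by positivity, ?_⟩
    rw [div_le_one (by linarith)]
    linarith
  have h1 : theta n ⟨_, hq⟩ 1 β s m = 0 := by
    apply theta_zero_of_small hs
    show 1 / (T + 2) * T < 1
    rw [div_mul_eq_mul_div, one_mul, div_lt_one (by linarith)]
    linarith
  have h2 : (⟨_, hq⟩ : unitInterval) ≤ acS n m s β := le_crit (f := fun a => theta n a 1 β s m) h1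
  refine lt_of_lt_of_le ?_ h2
  show (0 : ℝ) < 1 / (T + 2)
  positivity

/-- **No percolation at the critical point**, site percolation. -/
theorem site_crit {m : ℕ} {s : ℝ} (hn : 1 ≤ n) (hm : 1 ≤ m) (hs : 1 < s) (hs2 : s < 2)
    {β : NNReal} (hβ : 0 < β) : theta n (acS n m s β) 1 β s m = 0 := by
  by_contra hc
  have hθ : 0 < theta n (acS n m s β) 1 β s m := lt_of_le_of_ne (theta_nonneg _ _ _ _ _) (Ne.symm hc)
  obtain ⟨K, δ, hδ, h⟩ := open_phase hn hm hs hs2 (acS_pos hs β) one_pos hβ (by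
    have := acS_lt_one hn m s β
    simpa using this) hθ
  refine crit_zero (f := fun a => theta n a 1 β s m) (acS_pos hs β) δ hδ (fun q hq => ?_)
  have h1 := h q 1 β hq (by simpa using hδ.le) (by simpa using hδ.le)
  have h2 := thetaK_le (n := n) q 1 β s m K
  have h3 : 0 < theta n q 1 β s m := lt_of_lt_of_le h1 h2
  exact h3.ne'

/-- monotonicity of the critical point in the long-range intensity -/
theorem acS_anti (m : ℕ) (s : ℝ) {β β' : NNReal} (h : β ≤ β') : acS n m s β' ≤ acS n m s β := by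
  show (acS n m s β' : ℝ) ≤ acS n m s β
  refine crit_le (acS n m s β).2.1 (fun q hq => ?_)
  have h1 : theta n q 1 β s m = 0 := by
    apply le_antisymm _ (theta_nonneg _ _ _ _ _)
    have := theta_mono (n := n) (le_refl q) (le_refl (1 : unitInterval)) h s m
    have h2 : theta n q 1 β' s m = 0 := hq
    linarith
  exact le_crit (f := fun a => theta n a 1 β s m) h1

/-- no percolation below the nearest-neighbour critical point for weak long-range bonds -/
theorem site_low (hdct : S_dctS) (hsim : S_simonS) (hlow : S_lowbS) {m : ℕ} {s : ℝ} (hn : 1 ≤ n)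
    (hs : 1 < s) {a : unitInterval} (ha : a < acS n m s 0) :
    ∃ β0 : NNReal, 0 < β0 ∧ ∀ β ≤ β0, theta n a 1 β s m = 0 := by
  have ha' : (a : ℝ) < acS n m s 0 := ha
  obtain ⟨q, h1, h2, h3⟩ := exists_of_lt_crit (f := fun a => theta n a 1 0 s m) a.2.1 ha'
  have h1' : a < q := h1
  obtain ⟨S, hS0, hS1⟩ := hdct n m s a q hn h1' h3
  obtain ⟨β0, ρ, hβ0, hρ, h4⟩ := hlow n m a s hs S hS0 hS1
  refine ⟨β0, hβ0, fun β hβ => ?_⟩
  exact hsim n m a β s hs S ρ hS0 hρ (h4 β hβ) 0

/-- **Convergence of the critical points.** -/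
theorem acS_tendsto (hdct : S_dctS) (hsim : S_simonS) (hlow : S_lowbS) {m : ℕ} {s : ℝ}
    (hn : 1 ≤ n) (hs : 1 < s) :
    Tendsto (fun β : NNReal => (acS n m s β : ℝ)) (𝓝 0) (𝓝 (acS n m s 0 : ℝ)) := by
  rw [Metric.tendsto_nhds]
  intro ε hε
  have hpos : (0 : ℝ) < acS n m s 0 := acS_pos hs 0
  set x : ℝ := max ((acS n m s 0 : ℝ) - ε / 2) 0
  have hx0 : 0 ≤ x := le_max_right _ _
  have hx1 : x < acS n m s 0 := max_lt (by linarith) hpos
  have hx2 : x ≤ 1 := hx1.le.trans (acS n m s 0).2.2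
  obtain ⟨β0, hβ0, h⟩ := site_low hdct hsim hlow (m := m) hn hs (a := ⟨x, hx0, hx2⟩) hx1
  have hev : ∀ᶠ β : NNReal in 𝓝 0, β ≤ β0 := Iic_mem_nhds hβ0
  filter_upwards [hev] with β hβ
  have h1 : (⟨x, hx0, hx2⟩ : unitInterval) ≤ acS n m s β :=
    le_crit (f := fun a => theta n a 1 β s m) (h β hβ)
  have h1' : x ≤ acS n m s β := h1
  have h2 : (acS n m s β : ℝ) ≤ acS n m s 0 := acS_anti m s (zero_le)
  have h3 := le_max_left ((acS n m s 0 : ℝ) - ε / 2) 0
  rw [Real.dist_eq, abs_lt]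
  constructor <;> linarith

/-! ### Finite range -/

lemma acS_le_acSK (m : ℕ) (s : ℝ) (β : NNReal) (K : ℕ) : acS n m s β ≤ acSK n m s β K := by
  show (acS n m s β : ℝ) ≤ acSK n m s β K
  refine crit_le (acSK n m s β K).2.1 (fun q hq => ?_)
  refine le_crit (f := fun a => thetaK n a 1 β s m K) ?_
  have h1 := thetaK_le (n := n) q 1 β s m K
  have h2 : theta n q 1 β s m = 0 := hq
  exact le_antisymm (by linarith) measureReal_nonneg

/-- **Truncation of the critical point.** -/
theorem acSK_tendsto {m : ℕ} {s : ℝ} (hn : 1 ≤ n) (hm : 1 ≤ m) (hs : 1 < s) (hs2 : s < 2)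
    {β : NNReal} (hβ : 0 < β) :
    Tendsto (fun K : ℕ => (acSK n m s β K : ℝ)) atTop (𝓝 (acS n m s β : ℝ)) := by
  rw [Metric.tendsto_nhds]
  intro ε hε
  have hlt := acS_lt_one hn m s β
  have hpos : (0 : ℝ) < acS n m s β := acS_pos hs β
  set x : ℝ := min ((acS n m s β : ℝ) + ε / 2) (((acS n m s β : ℝ) + 1) / 2)
  have hx1 : (acS n m s β : ℝ) < x := lt_min (by linarith) (by linarith)
  have hx2 : x < 1 := lt_of_le_of_lt (min_le_right _ _) (by linarith)
  have hx3 : x ≤ (acS n m s β : ℝ) + ε / 2 := min_le_left _ _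
  have hx0 : 0 < x := by linarith
  have hθ : 0 < theta n ⟨x, hx0.le, hx2.le⟩ 1 β s m := by
    apply lt_of_le_of_ne (theta_nonneg _ _ _ _ _)
    intro h0
    have h1 : (⟨x, hx0.le, hx2.le⟩ : unitInterval) ≤ acS n m s β :=
      le_crit (f := fun a => theta n a 1 β s m) h0.symm
    have h1' : x ≤ acS n m s β := h1
    linarith
  obtain ⟨K, δ, hδ, h⟩ := open_phase hn hm hs hs2
    (show (0 : unitInterval) < ⟨x, hx0.le, hx2.le⟩ from hx0) one_pos hβ (by simpa using hx2) hθ
  have h1 := h ⟨x, hx0.le, hx2.le⟩ 1 β (by simpa using hδ.le) (by simpa using hδ.le)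
    (by simpa using hδ.le)
  filter_upwards [eventually_ge_atTop K] with K' hK'
  have h2 : (acSK n m s β K' : ℝ) ≤ x := by
    refine crit_le hx0.le (fun q hq => ?_)
    by_contra hc
    push Not at hc
    have h3 := thetaK_mono (n := n) (show (⟨x, hx0.le, hx2.le⟩ : unitInterval) ≤ q from hc.le)
      (le_refl (1 : unitInterval)) (le_refl β) s m hK'
    have h4 : thetaK n q 1 β s m K' = 0 := hq
    linarith
  have h3 : (acS n m s β : ℝ) ≤ acSK n m s β K' := acS_le_acSK m s β K'
  rw [Real.dist_eq, abs_lt]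
  constructor <;> linarith

/-- **The jump of the finite-range models tends to zero.** -/
theorem thetaKS_tendsto (husc : S_usc) {m : ℕ} {s : ℝ} (hn : 1 ≤ n) (hm : 1 ≤ m) (hs : 1 < s)
    (hs2 : s < 2) {β : NNReal} (hβ : 0 < β) :
    Tendsto (fun K : ℕ => thetaK n (acSK n m s β K) 1 β s m K) atTop (𝓝 0) := by
  rw [Metric.tendsto_nhds]
  intro ε hε
  obtain ⟨δ, hδ, h⟩ := husc n m (acS n m s β) 1 β s hs (ε / 2) (by positivity)
  have h1 := (Metric.tendsto_nhds.mp (acSK_tendsto hn hm hs hs2 hβ)) δ hδ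
  filter_upwards [h1] with K hK
  rw [Real.dist_eq] at hK
  have h2 := h (acSK n m s β K) 1 hK.le (by simpa using hδ.le)
  have h3 : theta n (acS n m s β) 1 β s m = 0 := site_crit hn hm hs hs2 hβ
  have h4 := thetaK_le (n := n) (acSK n m s β K) 1 β s m K
  have h5 : 0 ≤ thetaK n (acSK n m s β K) 1 β s m K := measureReal_nonneg
  unfold theta at h3 h4
  rw [Real.dist_eq, sub_zero, abs_of_nonneg h5]
  linarith

end

end Pool.Agent.W783.PC
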