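import Pool.Agent.W783.Perc.CritS
import Pool.Agent.W376.PC.SimonS
import Pool.Agent.W462.PC.DctS
import Pool.Agent.W613.PC.Lowb
import Pool.Agent.W148.PC.Usc
import Pool.Agent.W333.PC.Harris

set_option autoImplicit false

open MeasureTheory Set Filter
open scoped Topology

/-!
Final forms.
-/

namespace Pool.Agent.W783.PC

noncomputable section

variable {n : ℕ}

/-- Nearest-neighbour percolation on `Z^(n+1)`: probability that the origin lies in an infinite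
open cluster when sites are open with probability `a` and nearest-neighbour bonds with
probability `p`. -/
def thetaZ (n : ℕ) (a p : unitInterval) : ℝ :=
  (pm (fun c : Ix n => match c with | Sum.inl _ => a | Sum.inr _ => p)).real
    (Perc {e : Sym2 (V n) | isNN e} 0)

/-- The critical probability of nearest-neighbour bond percolation on `Z^(n+1)`. -/
def pcZ (n : ℕ) : unitInterval := crit (fun p => thetaZ n 1 p)

/-- The critical probability of nearest-neighbour site percolation on `Z^(n+1)`. -/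
def acZ (n : ℕ) : unitInterval := crit (fun a => thetaZ n a 1)

lemma theta_zero_eq (a p : unitInterval) (s : ℝ) (m : ℕ) : theta n a p 0 s m = thetaZ n a p :=
  Pool.Agent.W148.PC.s_nneq n m a p s

lemma pcB_zero (m : ℕ) (s : ℝ) : pcB n m s 0 = pcZ n := by
  unfold pcB pcZ
  congr 1
  ext p
  exact theta_zero_eq 1 p s m

lemma acS_zero (m : ℕ) (s : ℝ) : acS n m s 0 = acZ n := by
  unfold acS acZ
  congr 1
  ext a
  exact theta_zero_eq a 1 s m

theorem bond_main {m : ℕ} {s : ℝ} (hn : 1 ≤ n) (hm : 1 ≤ m) (hs : 1 < s) (hs2 : s < 2) :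
    (∀ β : NNReal, 0 < β → 0 < pcB n m s β →
      pcB n m s β < 1 ∧ theta n 1 (pcB n m s β) β s m = 0) ∧
    0 < pcZ n ∧ Tendsto (fun β : NNReal => (pcB n m s β : ℝ)) (𝓝 0) (𝓝 (pcZ n : ℝ)) := by
  refine ⟨fun β hβ hpc => ⟨pcB_lt_one hn m s β, bond_crit hn hm hs hs2 hβ hpc⟩, ?_, ?_⟩
  · rw [← pcB_zero 1 s]
    exact pcB_zero_pos hs
  · rw [← pcB_zero m s]
    exact pcB_tendsto Pool.Agent.W613.PC.s_lowb hn hs

theorem site_main {m : ℕ} {s : ℝ} (hn : 1 ≤ n) (hm : 1 ≤ m) (hs : 1 < s) (hs2 : s < 2) :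
    (∀ β : NNReal, 0 < β →
      0 < acS n m s β ∧ acS n m s β < 1 ∧ theta n (acS n m s β) 1 β s m = 0) ∧
    Tendsto (fun β : NNReal => (acS n m s β : ℝ)) (𝓝 0) (𝓝 (acZ n : ℝ)) := by
  refine ⟨fun β hβ => ⟨acS_pos hs β, acS_lt_one hn m s β, site_crit hn hm hs hs2 hβ⟩, ?_⟩
  rw [← acS_zero m s]
  exact acS_tendsto
    (Pool.Agent.W462.PC.s_dctS Pool.Agent.W45.PC.s_indep Pool.Agent.W45.PC.s_depmeas
      Pool.Agent.W400.PC.s_mono Pool.Agent.W975.PC.s_reach_meas)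
    (Pool.Agent.W376.PC.SimonS.s_simonS Pool.Agent.W45.PC.s_indep Pool.Agent.W45.PC.s_depmeas
      Pool.Agent.W333.PC.s_harris) Pool.Agent.W613.PC.s_lowbS hn hs

theorem bond_finite {m : ℕ} {s : ℝ} (hn : 1 ≤ n) (hm : 1 ≤ m) (hs : 1 < s) (hs2 : s < 2)
    {ε : ℝ} (hε : 0 < ε) :
    ∃ β0 : NNReal, 0 < β0 ∧ ∀ β : NNReal, 0 < β → β ≤ β0 → ∃ K0 : ℕ, ∀ K ≥ K0,
      |(pcBK n m s β K : ℝ) - pcZ n| ≤ ε ∧ thetaK n 1 (pcBK n m s β K) β s m K ≤ ε := by
  obtain ⟨-, hpos, ht⟩ := bond_main hn hm hs hs2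
  have hpos' : (0 : ℝ) < pcZ n := hpos
  have h1 := (Metric.tendsto_nhds.mp ht) (min (ε / 2) (pcZ n : ℝ)) (by positivity)
  rw [Metric.eventually_nhds_iff] at h1
  obtain ⟨r, hr, h1⟩ := h1
  refine ⟨⟨r / 2, by positivity⟩, by show (0 : ℝ) < r / 2; positivity, fun β hβ hβ0 => ?_⟩
  have hβr : dist β 0 < r := by
    rw [NNReal.dist_eq]
    have h2 : (β : ℝ) ≤ r / 2 := hβ0
    have h3 : (0 : ℝ) ≤ β := β.2
    simp only [NNReal.coe_zero, sub_zero, abs_of_nonneg h3]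
    linarith
  have h2 := h1 hβr
  rw [Real.dist_eq] at h2
  have h3 := h2.trans_le (min_le_left _ _)
  have h4 := h2.trans_le (min_le_right _ _)
  have hpc : 0 < pcB n m s β := by
    show (0 : ℝ) < pcB n m s β
    have := (abs_lt.mp h4).1
    linarith
  have h5 := (Metric.tendsto_nhds.mp (pcBK_tendsto hn hm hs hs2 hβ hpc)) (ε / 2) (by positivity)
  have h6 := (Metric.tendsto_nhds.mp (thetaK_tendsto Pool.Agent.W148.PC.s_usc hn hm hs hs2 hβ hpc))
    ε hε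
  obtain ⟨K0, hK0⟩ := eventually_atTop.mp (h5.and h6)
  refine ⟨K0, fun K hK => ?_⟩
  obtain ⟨h7, h8⟩ := hK0 K hK
  rw [Real.dist_eq] at h7 h8
  constructor
  · have := abs_sub_le (pcBK n m s β K : ℝ) (pcB n m s β) (pcZ n)
    linarith
  · rw [sub_zero] at h8
    exact (le_abs_self _).trans h8.le

theorem site_finite {m : ℕ} {s : ℝ} (hn : 1 ≤ n) (hm : 1 ≤ m) (hs : 1 < s) (hs2 : s < 2)
    {ε : ℝ} (hε : 0 < ε) :
    ∃ β0 : NNReal, 0 < β0 ∧ ∀ β : NNReal, 0 < β → β ≤ β0 → ∃ K0 : ℕ, ∀ K ≥ K0,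
      |(acSK n m s β K : ℝ) - acZ n| ≤ ε ∧ thetaK n (acSK n m s β K) 1 β s m K ≤ ε := by
  obtain ⟨-, ht⟩ := site_main hn hm hs hs2
  have h1 := (Metric.tendsto_nhds.mp ht) (ε / 2) (by positivity)
  rw [Metric.eventually_nhds_iff] at h1
  obtain ⟨r, hr, h1⟩ := h1
  refine ⟨⟨r / 2, by positivity⟩, by show (0 : ℝ) < r / 2; positivity, fun β hβ hβ0 => ?_⟩
  have hβr : dist β 0 < r := by
    rw [NNReal.dist_eq]
    have h2 : (β : ℝ) ≤ r / 2 := hβ0
    have h3 : (0 : ℝ) ≤ β := β.2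
    simp only [NNReal.coe_zero, sub_zero, abs_of_nonneg h3]
    linarith
  have h3 := h1 hβr
  rw [Real.dist_eq] at h3
  have h5 := (Metric.tendsto_nhds.mp (acSK_tendsto hn hm hs hs2 hβ)) (ε / 2) (by positivity)
  have h6 := (Metric.tendsto_nhds.mp (thetaKS_tendsto Pool.Agent.W148.PC.s_usc hn hm hs hs2 hβ))
    ε hε
  obtain ⟨K0, hK0⟩ := eventually_atTop.mp (h5.and h6)
  refine ⟨K0, fun K hK => ?_⟩
  obtain ⟨h7, h8⟩ := hK0 K hK
  rw [Real.dist_eq] at h7 h8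
  constructor
  · have := abs_sub_le (acSK n m s β K : ℝ) (acS n m s β) (acZ n)
    linarith
  · rw [sub_zero] at h8
    exact (le_abs_self _).trans h8.le

end

end Pool.Agent.W783.PC
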