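import Pool.Agent.W783.Perc.Robust
import Pool.Agent.W11.PC.GoodMain
import Pool.Agent.W230.PC.Big
import Pool.Agent.W439.PC.NoExit
import Pool.Agent.W374.PC.Ent
import Pool.Agent.W216.PC.Avg
import Pool.Agent.W402.PC.Simon

set_option autoImplicit false

open MeasureTheory Set

/-!
Assembly of the parts; the percolating phase is open.
-/

namespace Pool.Agent.W783.PC

noncomputable section

variable {n : ℕ}

theorem all_big : S_big :=
  Pool.Agent.W230.PCBig.s_big Pool.Agent.W45.PC.s_glue Pool.Agent.W400.PC.s_approx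
    (Pool.Agent.W439.PCN.s_noexit Pool.Agent.W400.PC.s_closed) Pool.Agent.W975.PC.s_reach_dep
    Pool.Agent.W975.PC.s_perc_meas Pool.Agent.W975.PC.s_int_fin Pool.Agent.W45.PC.s_depmeas
    Pool.Agent.W216.PC.s_avg

theorem all_good : S_good :=
  Pool.Agent.W11.PC.s_good all_big
    (Pool.Agent.W374.PCEnt.t_entropy Pool.Agent.W45.PC.s_glue Pool.Agent.W400.PC.s_closedF
      Pool.Agent.W975.PC.s_reach_dep)
    Pool.Agent.W45.PC.s_open Pool.Agent.W45.PC.s_indep Pool.Agent.W45.PC.s_depmeas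
    Pool.Agent.W975.PC.s_reach_dep Pool.Agent.W975.PC.s_int_fin
    (Pool.Agent.W599.PC.Gr2.s_shift_pm Pool.Agent.W400.PC.s_equiv)
    Pool.Agent.W599.PC.Gr2.s_shift_G Pool.Agent.W599.PC.Gr2.s_shift_E

/-! ### From some vertex to the origin -/

lemma Perc_inc (E : Set (Sym2 (V n))) (x : V n) : Inc (Perc E x) := by
  intro ω ω' h hω
  refine Set.Infinite.mono ?_ hω
  intro y hy
  refine SimpleGraph.Reachable.mono ?_ hy
  rintro a b ⟨h1, h2, h3, h4, h5, h6, h7⟩
  exact ⟨h1, h2, h3, h4, h _ h5, h _ h6, h _ h7⟩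

lemma G_monoE {E E' : Set (Sym2 (V n))} (h : E ⊆ E') (ω : Cfg n) (R : Set (V n)) :
    G E ω R ≤ G E' ω R := by
  rintro a b ⟨h1, h2, h3, h4, h5⟩
  exact ⟨h1, h2, h3, h h4, h5⟩

lemma Perc_monoE {E E' : Set (Sym2 (V n))} (h : E ⊆ E') (x : V n) : Perc E x ⊆ Perc E' x := by
  intro ω hω
  refine Set.Infinite.mono ?_ hω
  intro y hy
  exact SimpleGraph.Reachable.mono (G_monoE h ω univ) hy

lemma Perc_of_reach {E : Set (Sym2 (V n))} {ω : Cfg n} {x y : V n}
    (h : (G E ω univ).Reachable x y) (hy : ω ∈ Perc E y) : ω ∈ Perc E x := by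
  refine Set.Infinite.mono ?_ hy
  intro z hz
  exact h.trans hz

/-- nearest-neighbour graph -/
def nnG (n : ℕ) : SimpleGraph (V n) where
  Adj x y := NN x y
  symm := ⟨fun _ _ h => NN_symm h⟩
  loopless := ⟨fun x h => by
    have h' : NN x x := h
    unfold NN at h'
    simp at h'⟩

lemma nn_step1 (x : V n) : NN x (x.1 + 1, x.2) := by
  unfold NN
  simp

lemma nn_step2 (x : V n) (i : Fin n) : NN x (x.1, Function.update x.2 i (x.2 i + 1)) := by
  unfold NN
  simp only [sub_self, abs_zero, zero_add]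
  rw [Finset.sum_eq_single i]
  · simp
  · intro j _ hj
    rw [Function.update_of_ne hj]
    simp
  · intro h
    exact absurd (Finset.mem_univ _) h

lemma nn_reach1 (x : V n) (k : ℕ) : (nnG n).Reachable x (x.1 + k, x.2) := by
  induction k with
  | zero => simp only [Nat.cast_zero, add_zero]; exact SimpleGraph.Reachable.refl _
  | succ k ih =>
    refine ih.trans (SimpleGraph.Adj.reachable ?_)
    have := nn_step1 (n := n) (x.1 + k, x.2)
    show NN _ _
    push_cast
    rw [← add_assoc]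
    exact this

lemma nn_reach1' (a b : ℤ) (c : Fin n → ℤ) : (nnG n).Reachable (a, c) (b, c) := by
  rcases le_total a b with h | h
  · have := nn_reach1 (n := n) (a, c) (b - a).toNat
    rw [Int.toNat_of_nonneg (by linarith)] at this
    simpa using this
  · have := nn_reach1 (n := n) (b, c) (a - b).toNat
    rw [Int.toNat_of_nonneg (by linarith)] at this
    symm
    simpa using this

lemma nn_reach2 (x : V n) (i : Fin n) (k : ℕ) :
    (nnG n).Reachable x (x.1, Function.update x.2 i (x.2 i + k)) := by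
  induction k with
  | zero => 
    simp only [Nat.cast_zero, add_zero, Function.update_eq_self]
    exact SimpleGraph.Reachable.refl _
  | succ k ih =>
    refine ih.trans (SimpleGraph.Adj.reachable ?_)
    have := nn_step2 (n := n) (x.1, Function.update x.2 i (x.2 i + k)) i
    show NN _ _
    simp only [Function.update_self, Function.update_idem] at this
    push_cast
    rw [← add_assoc]
    exact this

lemma nn_reach2' (a : ℤ) (c : Fin n → ℤ) (i : Fin n) (b : ℤ) :
    (nnG n).Reachable (a, c) (a, Function.update c i b) := by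
  rcases le_total (c i) b with h | h
  · have := nn_reach2 (n := n) (a, c) i (b - c i).toNat
    rw [Int.toNat_of_nonneg (by linarith)] at this
    simpa using this
  · have := nn_reach2 (n := n) (a, Function.update c i b) i (c i - b).toNat
    rw [Int.toNat_of_nonneg (by linarith)] at this
    symm
    simpa using this

lemma nn_conn (x y : V n) : (nnG n).Reachable x y := by
  classical
  have key : ∀ (s : Finset (Fin n)) (c : Fin n → ℤ),
      (nnG n).Reachable (x.1, c) (x.1, fun i => if i ∈ s then y.2 i else c i) := by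
    intro s
    induction s using Finset.induction_on with
    | empty => intro c; simp only [Finset.notMem_empty, if_false]; exact SimpleGraph.Reachable.refl _
    | insert i s hi ih =>
      intro c
      refine (ih c).trans ?_
      have := nn_reach2' (n := n) x.1 (fun j => if j ∈ s then y.2 j else c j) i (y.2 i)
      convert this using 2
      ext j
      by_cases hj : j = i
      · subst hj; simp
      · rw [Function.update_of_ne hj]
        simp [Finset.mem_insert, hj]
  have h1 := key Finset.univ x.2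
  simp only [Finset.mem_univ, if_true] at h1
  exact h1.trans (nn_reach1' x.1 y.1 y.2)

/-- there is a finite set of coordinates whose openness connects `x` to `y` -/
lemma path_coords {E : Set (Sym2 (V n))} (hE : ∀ x y : V n, NN x y → s(x, y) ∈ E) (x y : V n) :
    ∃ F : Finset (Ix n), (∀ c ∈ F, (∃ v, c = Sum.inl v) ∨ ∃ e, isNN e ∧ c = Sum.inr e) ∧
      ∀ ω : Cfg n, (∀ c ∈ F, ω c = true) → (G E ω univ).Reachable x y := by
  classical
  obtain ⟨w⟩ := nn_conn x y
  induction w with
  | nil => exact ⟨∅, by simp, fun ω _ => SimpleGraph.Reachable.refl _⟩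
  | @cons a b c hab w ih =>
    obtain ⟨F, hF1, hF2⟩ := ih
    refine ⟨F ∪ {Sum.inl a, Sum.inl b, Sum.inr s(a, b)}, ?_, ?_⟩
    · intro c hc
      rw [Finset.mem_union] at hc
      rcases hc with hc | hc
      · exact hF1 c hc
      · simp only [Finset.mem_insert, Finset.mem_singleton] at hc
        rcases hc with rfl | rfl | rfl
        · exact Or.inl ⟨_, rfl⟩
        · exact Or.inl ⟨_, rfl⟩
        · exact Or.inr ⟨_, ⟨a, b, rfl, hab⟩, rfl⟩
    · intro ω hω
      refine SimpleGraph.Reachable.trans (SimpleGraph.Adj.reachable ?_)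
        (hF2 ω (fun c hc => hω c (Finset.mem_union_left _ hc)))
      refine ⟨?_, mem_univ _, mem_univ _, hE a b hab, ?_, ?_, ?_⟩
      · rintro rfl
        exact (nnG n).loopless.irrefl _ hab
      · exact hω _ (Finset.mem_union_right _ (by simp))
      · exact hω _ (Finset.mem_union_right _ (by simp))
      · exact hω _ (Finset.mem_union_right _ (by simp))

/-- if some vertex percolates with positive probability, so does the origin -/
lemma pos_origin {E : Set (Sym2 (V n))} (hE : ∀ x y : V n, NN x y → s(x, y) ∈ E)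
    (r : Ix n → unitInterval) (h1 : ∀ v, 0 < (r (Sum.inl v) : ℝ))
    (h2 : ∀ e, isNN e → 0 < (r (Sum.inr e) : ℝ))
    (h : 0 < (pm r).real {ω | ∃ x, ω ∈ Perc E x}) : 0 < (pm r).real (Perc E 0) := by
  have h3 : {ω : Cfg n | ∃ x, ω ∈ Perc E x} = ⋃ x, Perc E x := by
    ext ω; simp
  rw [h3] at h
  obtain ⟨x, hx⟩ : ∃ x : V n, 0 < (pm r) (Perc E x) := by
    by_contra hc
    push Not at hc
    have : (pm r) (⋃ x, Perc E x) = 0 := measure_iUnion_null (fun x => le_antisymm (hc x) bot_le)
    rw [Measure.real, this] at h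
    simp at h
  have hx' : 0 < (pm r).real (Perc E x) := by
    rw [Measure.real]
    exact ENNReal.toReal_pos hx.ne' (measure_ne_top _ _)
  obtain ⟨F, hF1, hF2⟩ := path_coords hE 0 x
  have h4 := Pool.Agent.W45.PC.s_open _ r F (Perc E x) (Perc_inc E x)
    (Pool.Agent.W975.PC.s_perc_meas n E x)
  have h5 : 0 < ∏ c ∈ F, (r c : ℝ) := by
    refine Finset.prod_pos (fun c hc => ?_)
    rcases hF1 c hc with ⟨v, rfl⟩ | ⟨e, he, rfl⟩
    · exact h1 v
    · exact h2 e he
  have h6 : (pm r).real (Perc E x ∩ {ω | ∀ c ∈ F, ω c = true}) ≤ (pm r).real (Perc E 0) := by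
    refine measureReal_mono ?_ (measure_ne_top _ _)
    rintro ω ⟨hω1, hω2⟩
    exact Perc_of_reach (hF2 ω hω2) hω1
  have := mul_pos h5 hx'
  linarith

lemma NN_Ed (m K : ℕ) (x y : V n) (h : NN x y) : s(x, y) ∈ Ed m K := Or.inl ⟨x, y, rfl, h⟩

lemma NN_EdI (m : ℕ) (x y : V n) (h : NN x y) : s(x, y) ∈ EdI m := Or.inl ⟨x, y, rfl, h⟩

lemma Ed_sub_EdI (m K : ℕ) : (Ed m K : Set (Sym2 (V n))) ⊆ EdI m := by
  rintro e (h | h)
  · exact Or.inl h
  · exact Or.inr h.1

lemma Ed_mono (m : ℕ) {K K' : ℕ} (hK : K ≤ K') : (Ed m K : Set (Sym2 (V n))) ⊆ Ed m K' := by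
  rintro e (h | h)
  · exact Or.inl h
  · exact Or.inr ⟨h.1, h.2.trans hK⟩

/-! ### Dependence of the parameters -/

lemma prob_inl (a p : unitInterval) (β : NNReal) (s : ℝ) (m : ℕ) (v : V n) :
    prob a p β s m (Sum.inl v) = a := rfl

lemma prob_nn (a p : unitInterval) (β : NNReal) (s : ℝ) (m : ℕ) {e : Sym2 (V n)} (h : isNN e) :
    prob a p β s m (Sum.inr e) = p := by
  unfold prob
  simp only
  rw [if_pos h]

lemma prob_lg (a p : unitInterval) (β : NNReal) (s : ℝ) (m : ℕ) {e : Sym2 (V n)} (h : ¬ isNN e)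
    (h' : isLg m e) : prob a p β s m (Sum.inr e) = lrp β s (len e) := by
  unfold prob
  simp only
  rw [if_neg h, if_pos h']

lemma prob_no (a p : unitInterval) (β : NNReal) (s : ℝ) (m : ℕ) {e : Sym2 (V n)} (h : ¬ isNN e)
    (h' : ¬ isLg m e) : prob a p β s m (Sum.inr e) = 0 := by
  unfold prob
  simp only
  rw [if_neg h, if_neg h']

lemma exp_diff {x y : ℝ} (hx : 0 ≤ x) (hy : 0 ≤ y) : |Real.exp (-x) - Real.exp (-y)| ≤ |x - y| := by
  have key : ∀ x y : ℝ, 0 ≤ x → x ≤ y → Real.exp (-x) - Real.exp (-y) ≤ y - x := by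
    intro x y hx hxy
    have h1 : Real.exp (-y) = Real.exp (-x) * Real.exp (-(y - x)) := by
      rw [← Real.exp_add]; congr 1; ring
    have h2 : 1 - (y - x) ≤ Real.exp (-(y - x)) := by
      have := Real.add_one_le_exp (-(y - x))
      linarith
    have h3 : Real.exp (-x) ≤ 1 := Real.exp_le_one_iff.mpr (by linarith)
    have h4 := Real.exp_pos (-x)
    rw [h1]
    nlinarith
  rcases le_total x y with h | h
  · rw [abs_of_nonneg (by
      have := Real.exp_le_exp.mpr (neg_le_neg h)
      linarith), abs_of_nonpos (by linarith)]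
    linarith [key x y hx h]
  · rw [abs_of_nonpos (by
      have := Real.exp_le_exp.mpr (neg_le_neg h)
      linarith), abs_of_nonneg (by linarith)]
    linarith [key y x hy h]

lemma lrp_diff (β β' : NNReal) {s : ℝ} (hs : 0 ≤ s) {k : ℕ} (hk : 1 ≤ k) :
    |(lrp β' s k : ℝ) - lrp β s k| ≤ |(β' : ℝ) - β| := by
  have h1 := lrp_val β s k
  have h2 := lrp_val β' s k
  have h3 : (lrp β' s k : ℝ) - lrp β s k = Real.exp (-((β : ℝ) * (k : ℝ) ^ (-s))) -
      Real.exp (-((β' : ℝ) * (k : ℝ) ^ (-s))) := by linarith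
  have h4 : 0 ≤ (k : ℝ) ^ (-s) := Real.rpow_nonneg (Nat.cast_nonneg _) _
  have h5 : (k : ℝ) ^ (-s) ≤ 1 :=
    Real.rpow_le_one_of_one_le_of_nonpos (by exact_mod_cast hk) (by linarith)
  rw [h3]
  refine (exp_diff (mul_nonneg β.2 h4) (mul_nonneg β'.2 h4)).trans ?_
  rw [← sub_mul, abs_mul, abs_of_nonneg h4, abs_sub_comm]
  exact mul_le_of_le_one_right (abs_nonneg _) h5

lemma len_two {m : ℕ} {e : Sym2 (V n)} (h : isLg m e) : 2 ≤ len e := by
  obtain ⟨x, y, rfl, h⟩ := h
  exact h.2.2

lemma prob_diff {δ : ℝ} (hδ : 0 ≤ δ) {a a' p p' : unitInterval} {β β' : NNReal} {s : ℝ}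
    (hs : 0 ≤ s) (m : ℕ) (ha : |(a' : ℝ) - a| ≤ δ) (hp : |(p' : ℝ) - p| ≤ δ)
    (hβ : |(β' : ℝ) - β| ≤ δ) (c : Ix n) :
    |(prob a' p' β' s m c : ℝ) - prob a p β s m c| ≤ δ := by
  rcases c with v | e
  · exact ha
  · by_cases h1 : isNN e
    · rw [prob_nn _ _ _ _ _ h1, prob_nn _ _ _ _ _ h1]
      exact hp
    · by_cases h2 : isLg m e
      · rw [prob_lg _ _ _ _ _ h1 h2, prob_lg _ _ _ _ _ h1 h2]
        exact (lrp_diff β β' hs (by have := len_two h2; omega)).trans hβ
      · rw [prob_no _ _ _ _ _ h1 h2, prob_no _ _ _ _ _ h1 h2]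
        simpa using hδ

/-- The percolation probability of the origin. -/
def theta (n : ℕ) (a p : unitInterval) (β : NNReal) (s : ℝ) (m : ℕ) : ℝ :=
  (pm (prob (n := n) a p β s m)).real (Perc (EdI m) 0)

/-- The percolation probability of the origin when only bonds of length at most `K` are used. -/
def thetaK (n : ℕ) (a p : unitInterval) (β : NNReal) (s : ℝ) (m K : ℕ) : ℝ :=
  (pm (prob (n := n) a p β s m)).real (Perc (Ed m K) 0)

lemma thetaK_le (a p : unitInterval) (β : NNReal) (s : ℝ) (m K : ℕ) :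
    thetaK n a p β s m K ≤ theta n a p β s m :=
  measureReal_mono (Perc_monoE (Ed_sub_EdI m K) 0) (measure_ne_top _ _)

/-- **Openness and truncation**, all parameters. -/
theorem open_phase {s : ℝ} (hn : 1 ≤ n) {m : ℕ} (hm : 1 ≤ m) (hs : 1 < s) (hs2 : s < 2)
    {a p : unitInterval} {β : NNReal} (ha : 0 < a) (hp : 0 < p) (hβ : 0 < β)
    (hap : (a : ℝ) * p < 1) (hθ : 0 < theta n a p β s m) :
    ∃ (K : ℕ) (δ : ℝ), 0 < δ ∧ ∀ (a' p' : unitInterval) (β' : NNReal),
      |(a' : ℝ) - a| ≤ δ → |(p' : ℝ) - p| ≤ δ → |(β' : ℝ) - β| ≤ δ →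
      0 < thetaK n a' p' β' s m K := by
  obtain ⟨K, δ, hδ, h⟩ := robust all_good m a p β s hn hm hs hs2 hβ ha hp hap hθ
  have ha' : 0 < (a : ℝ) := ha
  have hp' : 0 < (p : ℝ) := hp
  refine ⟨K, min δ (min ((a : ℝ) / 2) ((p : ℝ) / 2)), by positivity, ?_⟩
  intro a' p' β' h1 h2 h3
  have h1' : 0 < (a' : ℝ) := by
    have := (abs_le.mp (h1.trans ((min_le_right _ _).trans (min_le_left _ _)))).1
    linarith
  have h2' : 0 < (p' : ℝ) := by
    have := (abs_le.mp (h2.trans ((min_le_right _ _).trans (min_le_right _ _)))).1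
    linarith
  refine pos_origin (NN_Ed m K) _ (fun v => h1') (fun e he => ?_) ?_
  · rw [prob_nn _ _ _ _ _ he]
    exact h2'
  · refine h _ (fun c _ => prob_diff hδ.le (by linarith) m (h1.trans (min_le_left _ _))
      (h2.trans (min_le_left _ _)) (h3.trans (min_le_left _ _)) c)

end

end Pool.Agent.W783.PC
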