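import Pool.Agent.W783.Perc.CellP

set_option autoImplicit false

open MeasureTheory Set

/-!
The percolating phase is open and truncatable: the main finite-size argument, assembled.
-/

namespace Pool.Agent.W783.PC

noncomputable section

variable {n : ℕ}

/-! ### Translations of the good event -/

lemma upv_add (x z : V n) (j : ℤ) : upv x j + z = upv (x + z) j := by
  unfold upv
  apply Prod.ext
  · rfl
  · show x.2 + j • e1 n + z.2 = x.2 + z.2 + j • e1 n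
    abel

lemma Fop_shift (m : ℕ) (z : V n) (ω : Cfg n) (x : V n) :
    Fop m (fun c => ω (sh z c)) x ↔ Fop m ω (x + z) := by
  unfold Fop
  have h1 : ∀ j : ℤ, sh z (Sum.inl (upv x j)) = Sum.inl (upv (x + z) j) := by
    intro j
    unfold sh
    rw [Sum.map_inl, upv_add]
  have h2 : ∀ j : ℤ, sh z (Sum.inr s(upv x j, upv x (j + 1))) =
      Sum.inr s(upv (x + z) j, upv (x + z) (j + 1)) := by
    intro j
    unfold sh
    rw [Sum.map_inr, Sym2.map_mk]
    simp only [upv_add]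
  simp only [h1, h2]

lemma Bx_shift (z : V n) (l r L R : ℤ) : {v : V n | v - z ∈ Bx (0 : V n) l r L R} = Bx z l r L R := by
  ext v
  unfold Bx
  simp only [mem_ofPred_eq, Prod.fst_zero, Prod.snd_zero, Pi.zero_apply, zero_add, Prod.fst_sub,
    Prod.snd_sub, Pi.sub_apply]
  constructor
  · rintro ⟨h1, h2, h3⟩
    exact ⟨by linarith, by linarith, fun i => ⟨by linarith [(h3 i).1], by linarith [(h3 i).2]⟩⟩
  · rintro ⟨h1, h2, h3⟩
    exact ⟨by linarith, by linarith, fun i => ⟨by linarith [(h3 i).1], by linarith [(h3 i).2]⟩⟩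

lemma seg_shift (z w : V n) (N : ℕ) (x : V n) : x + z ∈ seg (w + z) N ↔ x ∈ seg w N := by
  rw [Dat.mem_seg, Dat.mem_seg]
  simp only [Prod.fst_add, Prod.snd_add]
  constructor
  · rintro ⟨⟨h1, h2⟩, h3⟩
    exact ⟨⟨by linarith, by linarith⟩, add_right_cancel h3⟩
  · rintro ⟨⟨h1, h2⟩, h3⟩
    exact ⟨⟨by linarith, by linarith⟩, by rw [h3]⟩

lemma cnt_shift (E : Set (Sym2 (V n))) (z : V n)
    (hE : ∀ x y : V n, s(x + z, y + z) ∈ E ↔ s(x, y) ∈ E) (m N : ℕ) (ω : Cfg n) (w x : V n)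
    (R : Set (V n)) :
    cnt E m N ω (w + z) {v | v - z ∈ R} (x + z) = cnt E m N (fun c => ω (sh z c)) w R x := by
  classical
  unfold cnt
  symm
  apply Finset.card_bij (fun y _ => y + z)
  · intro y hy
    rw [Finset.mem_filter] at hy ⊢
    obtain ⟨h1, h2, h3⟩ := hy
    exact ⟨(seg_shift z w N y).mpr h1,
      (Pool.Agent.W599.PC.Gr2.s_shift_G n E z hE ω R x y).mp h2, (Fop_shift m z ω y).mp h3⟩
  · intro a _ b _ h
    exact add_right_cancel h
  · intro y hy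
    rw [Finset.mem_filter] at hy
    obtain ⟨h1, h2, h3⟩ := hy
    have e : y - z + z = y := sub_add_cancel y z
    refine ⟨y - z, ?_, e⟩
    rw [Finset.mem_filter]
    refine ⟨?_, ?_, ?_⟩
    · rw [← seg_shift z w N, e]; exact h1
    · rw [Pool.Agent.W599.PC.Gr2.s_shift_G n E z hE ω R, e]; exact h2
    · rw [Fop_shift, e]; exact h3

lemma Gd_shift (E : Set (Sym2 (V n))) (z : V n)
    (hE : ∀ x y : V n, s(x + z, y + z) ∈ E ↔ s(x, y) ∈ E) (m N M : ℕ) (κ : ℝ) (u : Fin n → ℤ) :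
    Gd E m N M κ z u = {ω | (fun c => ω (sh z c)) ∈ Gd E m N M κ 0 u} := by
  ext ω
  unfold Gd
  simp only [mem_ofPred_eq]
  have e0 : z + (0, u) = (0 + (0, u)) + z := by rw [zero_add, add_comm]
  have key : ∀ x : V n, cnt E m N ω (z + (0, u)) (Bx z (-2 * N) (8 * N) (-2 * M) (3 * M)) (x + z) =
      cnt E m N (fun c => ω (sh z c)) (0 + (0, u)) (Bx 0 (-2 * N) (8 * N) (-2 * M) (3 * M)) x := by
    intro x
    rw [e0, ← Bx_shift z]
    exact cnt_shift E z hE m N ω _ x _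
  constructor
  · rintro ⟨x, hx, h⟩
    have e : x - z + z = x := sub_add_cancel x z
    refine ⟨x - z, ?_, ?_⟩
    · rw [← seg_shift z, e, ← e0]; exact hx
    · rw [← key, e]; exact h
  · rintro ⟨x, hx, h⟩
    refine ⟨x + z, ?_, ?_⟩
    · rw [e0, seg_shift]; exact hx
    · rw [key]; exact h

/-! ### Truncation -/

lemma G_trunc {m K : ℕ} {R : Set (V n)} (h : ∀ x ∈ R, ∀ y ∈ R, (x.1 - y.1).natAbs ≤ K)
    (ω : Cfg n) : G (EdI m) ω R = G (Ed m K) ω R := by
  ext x y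
  constructor
  · rintro ⟨h1, h2, h3, h4, h5⟩
    refine ⟨h1, h2, h3, ?_, h5⟩
    rcases h4 with h4 | h4
    · exact Or.inl h4
    · exact Or.inr ⟨h4, h x h2 y h3⟩
  · rintro ⟨h1, h2, h3, h4, h5⟩
    refine ⟨h1, h2, h3, ?_, h5⟩
    rcases h4 with h4 | h4
    · exact Or.inl h4
    · exact Or.inr h4.1

lemma Gd_trunc {m N M K : ℕ} {κ : ℝ} {u : Fin n → ℤ} (hK : 10 * N ≤ K) :
    Gd (EdI m) m N M κ (0 : V n) u = Gd (Ed m K) m N M κ 0 u := by
  have h : ∀ x ∈ Bx (0 : V n) (-2 * N) (8 * N) (-2 * M) (3 * M),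
      ∀ y ∈ Bx (0 : V n) (-2 * N) (8 * N) (-2 * M) (3 * M), (x.1 - y.1).natAbs ≤ K := by
    rintro x ⟨h1, h2, _⟩ y ⟨h3, h4, _⟩
    simp only [Prod.fst_zero] at h1 h2 h3 h4
    omega
  have hG : ∀ ω : Cfg n, G (EdI m) ω (Bx (0 : V n) (-2 * N) (8 * N) (-2 * M) (3 * M)) =
      G (Ed m K) ω (Bx (0 : V n) (-2 * N) (8 * N) (-2 * M) (3 * M)) := fun ω => G_trunc h ω
  have hc : ∀ (ω : Cfg n) (x : V n), cnt (EdI m) m N ω (0 + (0, u))
      (Bx (0 : V n) (-2 * N) (8 * N) (-2 * M) (3 * M)) x = cnt (Ed m K) m N ω (0 + (0, u))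
      (Bx (0 : V n) (-2 * N) (8 * N) (-2 * M) (3 * M)) x := by
    intro ω x
    unfold cnt
    rw [hG ω]
  ext ω
  constructor
  · rintro ⟨x, hx, h1⟩
    refine ⟨x, hx, ?_⟩
    rw [← hc]
    exact h1
  · rintro ⟨x, hx, h1⟩
    refine ⟨x, hx, ?_⟩
    rw [hc]
    exact h1

/-! ### Monotonicity of inner coordinates under translation -/

lemma Int'_shift (z : V n) (R R' : Set (V n)) (h : ∀ x ∈ R', x - z ∈ R) :
    Int' R' ⊆ (sh z) '' (Int' R) := by
  rintro c (⟨x, hx, rfl⟩ | ⟨e, he, rfl⟩)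
  · refine ⟨Sum.inl (x - z), Or.inl ⟨_, h x hx, rfl⟩, ?_⟩
    unfold sh
    rw [Sum.map_inl, sub_add_cancel]
  · induction e using Sym2.ind with
    | _ a b =>
      refine ⟨Sum.inr s(a - z, b - z), Or.inr ⟨_, ?_, rfl⟩, ?_⟩
      · intro x hx
        rw [Sym2.mem_iff] at hx
        rcases hx with rfl | rfl
        · exact h _ (he _ (Sym2.mem_mk_left a b))
        · exact h _ (he _ (Sym2.mem_mk_right a b))
      · unfold sh
        rw [Sum.map_inr, Sym2.map_mk]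
        simp only [sub_add_cancel]

namespace Dat

variable (d : Dat n)

/-- finite set of the coordinates of a cell -/
lemma QS_finite (v : ℤ × ℤ) : (Int' (d.Q v) ∩ rel d.E).Finite :=
  (Pool.Agent.W975.PC.s_int_fin n _ (d.Q_finite v)).inter_of_left _

def Dc (v : ℤ × ℤ) : Finset (Ix n) := (d.QS_finite v).toFinset

lemma coe_Dc (v : ℤ × ℤ) : (d.Dc v : Set (Ix n)) = Int' (d.Q v) ∩ rel d.E :=
  (d.QS_finite v).coe_toFinset

lemma Dc_card (v : ℤ × ℤ) : (d.Dc v).card ≤ (Int' (d.Q (0, 0))).ncard := by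
  have h0 : (Int' (d.Q (0, 0))).Finite := Pool.Agent.W975.PC.s_int_fin n _ (d.Q_finite (0, 0))
  have h1 : (d.Dc v : Set (Ix n)) ⊆ (sh ((10 * d.N * d.J * v.1, (d.D * v.2 * d.m) • e1 n) : V n)) ''
      (Int' (d.Q (0, 0))) := by
    rw [d.coe_Dc]
    refine inter_subset_left.trans (Int'_shift _ _ _ ?_)
    rintro x ⟨h1, h2, h3⟩
    refine ⟨?_, ?_, fun i => ?_⟩
    · show _ ≤ x.1 - 10 * d.N * d.J * v.1
      simp only [mul_zero]
      linarith
    · show x.1 - 10 * d.N * d.J * v.1 < _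
      linarith
    · show _ ≤ x.2 i - (d.D * v.2 * d.m) * e1 n i ∧ x.2 i - (d.D * v.2 * d.m) * e1 n i < _
      obtain ⟨h4, h5⟩ := h3 i
      constructor
      · simp only [mul_zero]
        linarith
      · simp only [mul_zero]
        linarith
  calc (d.Dc v).card = (d.Dc v : Set (Ix n)).ncard := (Set.ncard_coe_finset _).symm
    _ ≤ ((sh ((10 * d.N * d.J * v.1, (d.D * v.2 * d.m) • e1 n) : V n)) ''
      (Int' (d.Q (0, 0)))).ncard := Set.ncard_le_ncard h1 (h0.image _)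
    _ ≤ _ := Set.ncard_image_le h0

lemma Dc_disj {v w : ℤ × ℤ} (h : Pool.Agent.H592F.far v w) : Disjoint (d.Dc v) (d.Dc w) := by
  rw [← Finset.disjoint_coe, d.coe_Dc, d.coe_Dc]
  exact Disjoint.mono inter_subset_left inter_subset_left (Int'_disj (d.Q_disj h))

/-- If the cells are good enough for the parameters `r`, then percolation occurs for all
parameters close to `r` on the sites and on the bonds in `d.E`. -/
theorem robust_of (r : Ix n → unitInterval) (h : ∀ v, (pm r).real (d.Bc v) ≤ 1 / 10 ^ 12 / 2) :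
    ∃ δ : ℝ, 0 < δ ∧ ∀ r' : Ix n → unitInterval, (∀ c ∈ rel d.E, |(r' c : ℝ) - r c| ≤ δ) →
      0 < (pm r').real {ω | ∃ x, ω ∈ Perc d.E x} := by
  set L : ℝ := ((Int' (d.Q (0, 0))).ncard : ℝ)
  have hL : 0 ≤ L := Nat.cast_nonneg _
  refine ⟨1 / 10 ^ 12 / 2 / (L + 1), by positivity, fun r' hr' => ?_⟩
  have h1 : ∀ v, (pm r').real (d.Bc v) ≤ 1 / 10 ^ 12 := by
    intro v
    have h2 := Pool.Agent.W400.PC.s_tv _ r' r (d.Dc v) (d.Bc v) (by
      rw [d.coe_Dc]; exact d.Bc_dep v)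
    have h3 : ∑ c ∈ d.Dc v, |(r' c : ℝ) - r c| ≤ 1 / 10 ^ 12 / 2 := by
      calc ∑ c ∈ d.Dc v, |(r' c : ℝ) - r c| ≤ ∑ c ∈ d.Dc v, 1 / 10 ^ 12 / 2 / (L + 1) := by
            refine Finset.sum_le_sum (fun c hc => hr' c ?_)
            have : c ∈ (d.Dc v : Set (Ix n)) := hc
            rw [d.coe_Dc] at this
            exact this.2
        _ = (d.Dc v).card * (1 / 10 ^ 12 / 2 / (L + 1)) := by rw [Finset.sum_const, nsmul_eq_mul]
        _ ≤ (L + 1) * (1 / 10 ^ 12 / 2 / (L + 1)) := by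
            apply mul_le_mul_of_nonneg_right _ (by positivity)
            have : ((d.Dc v).card : ℝ) ≤ L := Nat.cast_le.mpr (d.Dc_card v)
            linarith
        _ = 1 / 10 ^ 12 / 2 := by field_simp
    have h4 := (abs_le.mp (h2.trans h3)).2
    have h5 := h v
    linarith
  have h2 := Pool.Agent.W573.PC.s_multi Pool.Agent.W45.PC.s_indep Pool.Agent.W45.PC.s_depmeas _ r'
    d.Bc d.Dc (fun v => by rw [d.coe_Dc]; exact d.Bc_dep v) (fun s t hst => d.Dc_disj hst) h1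
  have h3 : (pm r').real {ω | ∀ k, Pool.Agent.H592F.safe
      (Pool.Agent.H592F.bad (fun v => ω ∈ d.Bc v) k) (0, 0)} ≤
      (pm r').real {ω | ∃ x, ω ∈ Perc d.E x} := by
    refine measureReal_mono ?_ (measure_ne_top _ _)
    intro ω hω
    exact ⟨_, d.perc_of_safe hω⟩
  linarith

end Dat

lemma lrp_val (β : NNReal) (s : ℝ) (k : ℕ) :
    1 - (lrp β s k : ℝ) = Real.exp (-((β : ℝ) * (k : ℝ) ^ (-s))) := by
  show 1 - (1 - Real.exp (-((β : ℝ) * (k : ℝ) ^ (-s)))) = _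
  ring

lemma Mof_tendsto {s : ℝ} (hs : 1 < s) : Filter.Tendsto (fun N : ℕ => Mof s N) Filter.atTop Filter.atTop := by
  unfold Mof
  have h1 : Filter.Tendsto (fun N : ℕ => (N : ℝ) ^ (s - 1)) Filter.atTop Filter.atTop :=
    (tendsto_rpow_atTop (by linarith)).comp tendsto_natCast_atTop_atTop
  exact (tendsto_nat_floor_atTop).comp h1

/-- **The percolating phase is open, and truncation is possible.** -/
theorem robust (hgood : S_good) (m : ℕ) (a p : unitInterval) (β : NNReal) (s : ℝ) (hn : 1 ≤ n)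
    (hm : 1 ≤ m) (hs : 1 < s) (hs2 : s < 2) (hβ : 0 < β) (ha : 0 < a) (hp : 0 < p)
    (hap : (a : ℝ) * p < 1)
    (hθ : 0 < (pm (prob (n := n) a p β s m)).real (Perc (EdI m) 0)) :
    ∃ (K : ℕ) (δ : ℝ), 0 < δ ∧ ∀ r' : Ix n → unitInterval,
      (∀ c ∈ rel (Ed m K), |(r' c : ℝ) - prob a p β s m c| ≤ δ) →
      0 < (pm r').real {ω | ∃ x, ω ∈ Perc (Ed m K) x} := by
  obtain ⟨κ, c0, hκ, hc0, N0, hN0⟩ := hgood n m a p β s hn hm hs hs2 hβ ha hp hap hθ
  have hc1 : c0 ≤ 1 := by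
    obtain ⟨u, _, hu⟩ := hN0 N0 le_rfl
    exact hu.trans measureReal_le_one
  obtain ⟨N1, hN1⟩ := Pool.Agent.W578.PC.s_lim s c0 κ β (1 / 10 ^ 12 / 2) hs hs2 hc0 hc1 hκ
    (by exact_mod_cast hβ) (by positivity)
  obtain ⟨N2, hN2⟩ := Filter.eventually_atTop.mp ((Mof_tendsto hs).eventually_ge_atTop m)
  set N : ℕ := max (max N0 N1) (max N2 1) with hNdef
  have hNN0 : N0 ≤ N := by omega
  have hNN1 : N1 ≤ N := by omega
  have hNN2 : N2 ≤ N := by omega
  have hN : 1 ≤ N := by omega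
  obtain ⟨u, hu, hP⟩ := hN0 N hNN0
  have hJ : 1 ≤ Jof s N := by
    unfold Jof
    rw [Nat.one_le_floor_iff]
    apply Real.one_le_rpow
    · exact_mod_cast hN
    · have : 0 < 2 - s := by linarith
      positivity
  let d : Dat n := ⟨m, N, Mof s N, Jof s N, κ, u, hn, hm, hN, hN2 N hNN2, hJ, hκ, hu⟩
  set r : Ix n → unitInterval := prob a p β s m with hr
  set w : ℝ := (β : ℝ) * (20 * (N : ℝ) * Jof s N) ^ (-s) with hw
  have hw0 : 0 ≤ w := mul_nonneg β.2 (Real.rpow_nonneg (by positivity) _)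
  have hdiv : ∀ (i j : ℤ) (k : Fin n), (m : ℤ) ∣ (zz n m N i j).2 k := by
    intro i j k
    show (m : ℤ) ∣ (i * m) * e1 n k
    exact Dvd.intro_left (i * e1 n k) (by ring)
  have hP' : ∀ i j, c0 ≤ (pm r).real (Gd d.E d.m d.N d.M d.κ (zz n d.m d.N i j) d.u) := by
    intro i j
    have e1 : Gd d.E d.m d.N d.M d.κ (zz n d.m d.N i j) d.u =
        {ω | (fun c => ω (sh (zz n m N i j) c)) ∈ Gd (Ed m (20 * N * Jof s N)) m N (Mof s N) κ 0 u} :=
      Gd_shift (Ed m (20 * N * Jof s N)) (zz n m N i j)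
        (fun x y => (Pool.Agent.W599.PC.Gr2.s_shift_E n m _ _ (hdiv i j) x y).1) m N (Mof s N) κ u
    have hK : 10 * N ≤ 20 * N * Jof s N := by nlinarith
    have hmeas : MeasurableSet (Gd (Ed m (20 * N * Jof s N)) m N (Mof s N) κ (0 : V n) u) := by
      have h1 := d.Gd_meas 0 0
      have e2 : zz n d.m d.N 0 0 = 0 := by
        unfold zz
        simp
      rw [e2] at h1
      exact h1
    rw [e1, Measure.real, Pool.Agent.W599.PC.Gr2.s_shift_pm Pool.Agent.W400.PC.s_equiv n m a p β s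
      (zz n m N i j) (hdiv i j) _ hmeas, ← Gd_trunc hK]
    exact hP
  have hr' : ∀ y z : V n, Lg d.m y z → (y.1 - z.1).natAbs ≤ 20 * d.N * d.J →
      1 - (r (Sum.inr s(y, z)) : ℝ) ≤ Real.exp (-w) := by
    intro y z hyz hle
    rw [hr, prob_long hyz, lrp_val]
    apply Real.exp_le_exp.mpr
    have h2 : 2 ≤ (y.1 - z.1).natAbs := hyz.2.2
    have h3 : (20 * (N : ℝ) * Jof s N) ^ (-s) ≤ (((y.1 - z.1).natAbs : ℕ) : ℝ) ^ (-s) := by
      apply Real.rpow_le_rpow_of_nonpos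
      · have : (0 : ℕ) < (y.1 - z.1).natAbs := by omega
        exact_mod_cast this
      · exact_mod_cast hle
      · linarith
    have := mul_le_mul_of_nonneg_left h3 β.2
    rw [hw]
    simp only [NNReal.val_eq_coe] at this
    linarith
  have hB : ∀ v, (pm r).real (d.Bc v) ≤ 1 / 10 ^ 12 / 2 := by
    intro v
    refine (d.prob_Bc r hw0 hP' hr' v).trans ?_
    exact hN1 N hNN1
  obtain ⟨δ, hδ, h⟩ := d.robust_of r hB
  exact ⟨20 * N * Jof s N, δ, hδ, h⟩

end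

end Pool.Agent.W783.PC
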