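import Pool.Agent.W783.Perc.Defs
import Pool.Agent.H592F.Orient

set_option autoImplicit false

open MeasureTheory Set

/-!
Statements of the parts of the percolation project (each `S_*` is to be proved in its own file).
-/

namespace Pool.Agent.W783.PC

noncomputable section

/-! ### PT: product measures -/

/-- PT1: conditioning on finitely many coordinates. -/
def S_glue : Prop := ∀ (ι : Type) (r : ι → unitInterval) (S : Finset ι)
  (E : (ι → Bool) → Set (ι → Bool)),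
  (∀ ω ω' : ι → Bool, (∀ c ∈ S, ω c = ω' c) → E ω = E ω') →
  (∀ ω, DepOn (E ω) {c | c ∉ S}) → (∀ ω, MeasurableSet (E ω)) →
  MeasurableSet {ω | ω ∈ E ω} ∧ pm r {ω | ω ∈ E ω} = ∫⁻ ω, pm r (E ω) ∂(pm r)

/-- PT1: events depending on disjoint sets of coordinates are independent. -/
def S_indep : Prop := ∀ (ι : Type) (r : ι → unitInterval) (S T : Set ι) (A B : Set (ι → Bool)),
  DepOn A S → DepOn B T → Disjoint S T → MeasurableSet A → MeasurableSet B →
  pm r (A ∩ B) = pm r A * pm r B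

/-- PT1: finite families. -/
def S_indepF : Prop := ∀ (ι : Type) (r : ι → unitInterval) (κ : Type) (F : Finset κ)
  (S : κ → Set ι) (A : κ → Set (ι → Bool)), (∀ k ∈ F, DepOn (A k) (S k)) →
  (∀ k ∈ F, ∀ l ∈ F, k ≠ l → Disjoint (S k) (S l)) → (∀ k ∈ F, MeasurableSet (A k)) →
  pm r (⋂ k ∈ F, A k) = ∏ k ∈ F, pm r (A k)

/-- PT1: opening finitely many coordinates. -/
def S_open : Prop := ∀ (ι : Type) (r : ι → unitInterval) (F : Finset ι) (A : Set (ι → Bool)),
  Inc A → MeasurableSet A →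
  (∏ c ∈ F, (r c : ℝ)) * (pm r).real A ≤ (pm r).real (A ∩ {ω | ∀ c ∈ F, ω c = true})

/-- PT1: events depending on finitely many coordinates are measurable. -/
def S_depmeas : Prop := ∀ (ι : Type) (F : Finset ι) (A : Set (ι → Bool)),
  DepOn A (F : Set ι) → MeasurableSet A

/-- PT2: many coordinates are closed, lower bound. -/
def S_closed : Prop := ∀ (ι : Type) (r : ι → unitInterval) (T : Set ι), T.Countable →
  ∀ (w : ι → ℝ) (H : ℝ), (∀ c ∈ T, Real.exp (-(w c)) ≤ 1 - (r c : ℝ)) →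
  (∀ F : Finset ι, (F : Set ι) ⊆ T → ∑ c ∈ F, w c ≤ H) →
  Real.exp (-H) ≤ (pm r).real {ω | ∀ c ∈ T, ω c = false}

/-- PT2: finitely many coordinates are closed, upper bound. -/
def S_closedF : Prop := ∀ (ι : Type) (r : ι → unitInterval) (F : Finset ι) (w : ℝ),
  (∀ c ∈ F, 1 - (r c : ℝ) ≤ Real.exp (-w)) →
  (pm r).real {ω | ∀ c ∈ F, ω c = false} ≤ Real.exp (-(w * F.card))

/-- PT2: total variation. -/
def S_tv : Prop := ∀ (ι : Type) (r r' : ι → unitInterval) (F : Finset ι) (A : Set (ι → Bool)),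
  DepOn A (F : Set ι) → |(pm r).real A - (pm r').real A| ≤ ∑ c ∈ F, |(r c : ℝ) - r' c|

/-- PT2: approximation by events depending on finitely many coordinates. -/
def S_approx : Prop := ∀ (ι : Type) (r : ι → unitInterval) (A : Set (ι → Bool)),
  MeasurableSet A → ∀ η : ℝ, 0 < η → ∃ (F : Finset ι) (A' : Set (ι → Bool)),
  DepOn A' (F : Set ι) ∧ (pm r).real (A \ A') ≤ η ∧ (pm r).real (A' \ A) ≤ η

/-- PT2: relabelling the coordinates. -/
def S_equiv : Prop := ∀ (ι : Type) (r : ι → unitInterval) (τ : ι ≃ ι) (A : Set (ι → Bool)),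
  MeasurableSet A → pm (fun c => r (τ c)) A = pm r {ω | (fun c => ω (τ c)) ∈ A}

/-- PT2: monotonicity in the parameters. -/
def S_mono : Prop := ∀ (ι : Type) (r r' : ι → unitInterval) (A : Set (ι → Bool)),
  (∀ c, r c ≤ r' c) → Inc A → MeasurableSet A → pm r A ≤ pm r' A

/-! ### GR: the open graph -/

/-- GR: connection inside `R` depends only on the coordinates inside `R`. -/
def S_reach_dep : Prop := ∀ (n : ℕ) (E : Set (Sym2 (V n))) (R : Set (V n)) (x y : V n),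
  DepOn {ω : Cfg n | (G E ω R).Reachable x y} (Int' R ∩ rel E)

/-- GR: measurability of connection events. -/
def S_reach_meas : Prop := ∀ (n : ℕ) (E : Set (Sym2 (V n))) (R : Set (V n)) (x y : V n),
  MeasurableSet {ω : Cfg n | (G E ω R).Reachable x y}

/-- GR: the percolation event is measurable. -/
def S_perc_meas : Prop := ∀ (n : ℕ) (E : Set (Sym2 (V n))) (x : V n), MeasurableSet (Perc E x)

/-- GR: finiteness of the coordinates inside a finite region. -/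
def S_int_fin : Prop := ∀ (n : ℕ) (R : Set (V n)), R.Finite → (Int' R).Finite

/-- GR: translation invariance of the measure. -/
def S_shift_pm : Prop := ∀ (n m : ℕ) (a p : unitInterval) (β : NNReal) (s : ℝ) (z : V n),
  (∀ i, (m : ℤ) ∣ z.2 i) → ∀ A : Set (Cfg n), MeasurableSet A →
  pm (prob a p β s m) {ω : Cfg n | (fun c => ω (sh z c)) ∈ A} = pm (prob a p β s m) A

/-- GR: translation of the graph. -/
def S_shift_G : Prop := ∀ (n : ℕ) (E : Set (Sym2 (V n))) (z : V n),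
  (∀ x y : V n, s(x + z, y + z) ∈ E ↔ s(x, y) ∈ E) →
  ∀ (ω : Cfg n) (R : Set (V n)) (x y : V n),
  (G E (fun c => ω (sh z c)) R).Reachable x y ↔
    (G E ω {v | v - z ∈ R}).Reachable (x + z) (y + z)

/-- GR: the set of bonds is invariant under the translations which preserve the special lines. -/
def S_shift_E : Prop := ∀ (n m K : ℕ) (z : V n), (∀ i, (m : ℤ) ∣ z.2 i) → ∀ x y : V n,
  (s(x + z, y + z) ∈ Ed m K ↔ s(x, y) ∈ Ed m K) ∧ (s(x + z, y + z) ∈ EdI m ↔ s(x, y) ∈ EdI m)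

/-! ### Step 0: clusters in boxes are large -/

open scoped Classical in
/-- AVG: the average of the exit costs over the boxes. -/
def S_avg : Prop := ∀ (n : ℕ) (s : ℝ), 1 < s → s < 2 → ∃ C : ℝ, 0 < C ∧
  ∀ (N M : ℕ), 1 ≤ N → 1 ≤ M → ∀ (K : Finset (V n)),
  ∑ N' ∈ Finset.Ioc N (2 * N), ∑ M' ∈ Finset.Ioc M (2 * M),
    ∑ x ∈ K.filter (fun x => x ∈ (CB N' M' : Set (V n))), hx s N' M' x
    ≤ C * K.card * (N + M * (N : ℝ) ^ (2 - s))

/-- NOEXIT: lower bound for the probability that nothing leaves. -/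
def S_noexit : Prop := ∀ (n m : ℕ) (a p : unitInterval) (β : NNReal) (s : ℝ), 1 < s →
  (a : ℝ) * p < 1 → ∃ C : ℝ, 0 < C ∧ ∀ (N M : ℕ) (K : Finset (V n)), (∀ x ∈ K, x ∈ CB N M) →
  Real.exp (-(C * ∑ x ∈ K, hx s N M x)) ≤
    (pm (prob a p β s m)).real (noExit (EdI m) (K : Set (V n)) (CB N M))

/-- BIG: if the origin percolates with probability at least `θ > 0`, then its cluster inside the
box of size `2N x 2M`, `M = floor(N^(s-1))`, has at least `A M` vertices with probability at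
least `θ / 2`, for all large `N`. -/
def S_big : Prop := ∀ (n m : ℕ) (a p : unitInterval) (β : NNReal) (s : ℝ), 1 ≤ n → 1 ≤ m →
  1 < s → s < 2 → (a : ℝ) * p < 1 → ∀ (A : ℕ) (θ : ℝ), 0 < θ →
  θ ≤ (pm (prob (n := n) a p β s m)).real (Perc (EdI m) 0) →
  ∃ N0 : ℕ, ∀ N ≥ N0, θ / 2 ≤ (pm (prob (n := n) a p β s m)).real
    {ω | A * Mof s N ≤ (cl (EdI m) ω (CB (2 * N) (2 * Mof s N)) 0).ncard}

/-! ### Step 1: a good line -/

open scoped Classical in
/-- ENT: pairs of vertices of big clusters of two adjacent boxes which are not connected. -/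
def S_entropy : Prop := ∀ (n : ℕ) (r : Ix n → unitInterval) (E : Set (Sym2 (V n)))
  (B1 B2 : Finset (V n)), Disjoint B1 B2 → ∀ (a0 : ℕ), 1 ≤ a0 → ∀ (w : ℝ), 0 ≤ w →
  ∀ (X : ℕ) (P : Finset (V n × V n)), (∀ q ∈ P, q.1 ∈ B1 ∧ q.2 ∈ B2 ∧ s(q.1, q.2) ∈ E ∧
    1 - (r (Sum.inr s(q.1, q.2)) : ℝ) ≤ Real.exp (-w)) →
  (pm r).real {ω | 2 * X < (P.filter (fun q => ω (Sum.inl q.1) = true ∧ ω (Sum.inl q.2) = true ∧
      a0 ≤ (cl E ω (B1 : Set (V n)) q.1).ncard ∧ a0 ≤ (cl E ω (B2 : Set (V n)) q.2).ncard ∧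
      ¬ (G E ω ((B1 : Set (V n)) ∪ B2)).Reachable q.1 q.2)).card}
    ≤ 2 ^ ((B1.card + B2.card) / a0) * Real.exp (-(w * X))

/-- GOOD: there is a line which is good with probability bounded from below. -/
def S_good : Prop := ∀ (n m : ℕ) (a p : unitInterval) (β : NNReal) (s : ℝ), 1 ≤ n → 1 ≤ m →
  1 < s → s < 2 → 0 < β → 0 < a → 0 < p → (a : ℝ) * p < 1 →
  0 < (pm (prob (n := n) a p β s m)).real (Perc (EdI m) 0) →
  ∃ κ c0 : ℝ, 0 < κ ∧ 0 < c0 ∧ ∃ N0 : ℕ, ∀ N ≥ N0, ∃ u : Fin n → ℤ,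
    (∀ i, (m : ℤ) ∣ u i ∧ 0 ≤ u i ∧ u i < Mof s N) ∧
    c0 ≤ (pm (prob (n := n) a p β s m)).real (Gd (EdI m) m N (Mof s N) κ 0 u)

/-! ### Step 2: links -/

/-- LINK: two finite sets of vertices, determined by the coordinates in `S`, are not joined by an
open bond; the bonds between them are not in `S`. -/
def S_link : Prop := ∀ (n : ℕ) (r : Ix n → unitInterval) (S : Finset (Ix n))
  (X Y : Cfg n → Finset (V n)) (w L : ℝ), 0 ≤ w →
  (∀ ω ω' : Cfg n, (∀ c ∈ S, ω c = ω' c) → X ω = X ω' ∧ Y ω = Y ω') →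
  (∀ ω, Disjoint (X ω) (Y ω)) →
  (∀ ω, ∀ y ∈ X ω, ∀ z ∈ Y ω, Sum.inr s(y, z) ∉ S ∧
    1 - (r (Sum.inr s(y, z)) : ℝ) ≤ Real.exp (-w)) →
  (pm r).real {ω | L ≤ ((X ω).card : ℝ) * (Y ω).card ∧
    ∀ y ∈ X ω, ∀ z ∈ Y ω, ω (Sum.inr s(y, z)) = false} ≤ Real.exp (-(w * L))

/-- The number of blocks in a superblock. -/
def Jof (s : ℝ) (N : ℕ) : ℕ := ⌊(N : ℝ) ^ ((2 - s) / (2 * s))⌋₊

/-- LIM: the failure probability of a cell tends to zero. -/
def S_lim : Prop := ∀ (s c0 κ β η : ℝ), 1 < s → s < 2 → 0 < c0 → c0 ≤ 1 → 0 < κ → 0 < β →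
  0 < η → ∃ N0 : ℕ, ∀ N ≥ N0, (2 * (Mof s N : ℝ) + 1) * (2 * (1 - c0) ^ Jof s N +
    2 * Real.exp (-((β * (20 * (N : ℝ) * Jof s N) ^ (-s)) * (κ * N) ^ 2))) ≤ η

/-! ### Step 3: multiscale renormalisation -/

/-- MULTI: a field of rare bad events with finite range dependence. -/
def S_multi : Prop := ∀ (ι : Type) (r : ι → unitInterval) (B : ℤ × ℤ → Set (ι → Bool))
  (D : ℤ × ℤ → Finset ι), (∀ v, DepOn (B v) (D v : Set ι)) →
  (∀ s t, Pool.Agent.H592F.far s t → Disjoint (D s) (D t)) →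
  (∀ v, (pm r).real (B v) ≤ 1 / 10 ^ 12) →
  1 / 2 ≤ (pm r).real {ω | ∀ k, Pool.Agent.H592F.safe
    (Pool.Agent.H592F.bad (fun v => ω ∈ B v) k) (0, 0)}

/-- HIGH: percolation for parameters close to one. -/
def S_high : Prop := ∀ (n : ℕ), 1 ≤ n → ∃ ε : ℝ, 0 < ε ∧ ∀ (m : ℕ) (a p : unitInterval)
  (β : NNReal) (s : ℝ), 1 - ε ≤ (a : ℝ) → 1 - ε ≤ (p : ℝ) →
  0 < (pm (prob (n := n) a p β s m)).real (Perc (EdI m) 0)

/-- LOW: no percolation for small parameters. -/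
def S_low : Prop := ∀ (n m : ℕ) (a p : unitInterval) (β : NNReal) (s : ℝ), 1 < s →
  (a : ℝ) * (2 * (n + 1) * p + 2 * ∑' k : ℕ, (lrp β s (k + 2) : ℝ)) < 1 →
  ∀ x : V n, (pm (prob (n := n) a p β s m)).real (Perc (EdI m) x) = 0

/-! ### Sharpness (bond percolation, all sites open) -/

open scoped Classical in
/-- `E (number of open bonds from the cluster of `x` in `S` to the outside)`. -/
def phi {n : ℕ} (p : unitInterval) (β : NNReal) (s : ℝ) (m : ℕ) (S : Finset (V n)) (x : V n) : ℝ :=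
  ∑ y ∈ S, (pm (prob (n := n) 1 p β s m)).real {ω | (G (EdI m) ω (S : Set (V n))).Reachable x y} *
    ∑' z : V n, if z ∈ S then 0 else (prob (n := n) 1 p β s m (Sum.inr s(y, z)) : ℝ)

/-- SIMON: if `phi < 1` uniformly for the translates of a finite set, there is no percolation. -/
def S_simon : Prop := ∀ (n m : ℕ) (p : unitInterval) (β : NNReal) (s : ℝ), 1 < s →
  ∀ (S : Finset (V n)) (ρ : ℝ), 0 ∈ S → ρ < 1 →
  (∀ x : V n, phi p β s m (S.map (addRightEmbedding x)) x ≤ ρ) →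
  ∀ x : V n, (pm (prob (n := n) 1 p β s m)).real (Perc (EdI m) x) = 0

/-- DCT: nearest-neighbour percolation, Duminil-Copin and Tassion: if there is no percolation at
`p' > p`, then `phi_p(S) < 1` for some finite set `S`. -/
def S_dct : Prop := ∀ (n m : ℕ) (s : ℝ) (p p' : unitInterval), 1 ≤ n → p < p' →
  (pm (prob (n := n) 1 p' 0 s m)).real (Perc (EdI m) 0) = 0 →
  ∃ S : Finset (V n), 0 ∈ S ∧ phi p 0 s m S 0 < 1

end

end Pool.Agent.W783.PC
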